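import Mathlib

/-!
General criterion for a complex in `Rep k G` to be a projective resolution of the trivial
representation, with hypotheses stated on elements, and consequences for group cohomology.
-/

namespace Pool.Agent.Helper74.PD3

open CategoryTheory

universe u

variable {k G : Type u} [CommRing k] [Group G]

section Res

variable (C : ChainComplex (Rep.{u} k G) ℕ) (ε : C.X 0 ⟶ Rep.trivial k G k)
  (hε : C.d 1 0 ≫ ε = 0)

/-- The augmentation morphism. -/
noncomputable def augMap : C ⟶ (ChainComplex.single₀ (Rep.{u} k G)).obj (Rep.trivial k G k) :=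
  (C.toSingle₀Equiv _).symm ⟨ε, hε⟩

set_option backward.defeqAttrib.useBackward true in
set_option backward.isDefEq.respectTransparency false in
theorem quasiIso_augMap
    (h0 : ∀ u : C.X 0, ε.hom u = 0 → ∃ v : C.X 1, (C.d 1 0).hom v = u)
    (hsucc : ∀ (m : ℕ) (u : C.X (m + 1)), (C.d (m + 1) m).hom u = 0 →
      ∃ v : C.X (m + 2), (C.d (m + 2) (m + 1)).hom v = u)
    (hsurj : ∀ r : k, ∃ u : C.X 0, ε.hom u = r) : QuasiIso (augMap C ε hε) where
  quasiIsoAt m := by
    induction m with
    | zero =>
      simp only [augMap]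
      rw [ChainComplex.quasiIsoAt₀_iff, ShortComplex.quasiIso_iff_of_zeros' _ (C.shape _ _ (by simp)) rfl rfl]
      constructor
      · apply (forget₂ (Rep.{u} k G) (ModuleCat.{u} k)).reflects_exact_of_faithful
        rw [ShortComplex.moduleCat_exact_iff]
        intro u hu
        exact h0 u hu
      · rw [Rep.epi_iff_surjective]
        intro x
        exact hsurj x
    | succ m _ =>
      rw [quasiIsoAt_iff_exactAt' (hL := ChainComplex.exactAt_succ_single_obj ..),
          HomologicalComplex.exactAt_iff' _ (m + 2) (m + 1) m (by simp) (by simp)]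
      apply (forget₂ (Rep.{u} k G) (ModuleCat.{u} k)).reflects_exact_of_faithful
      rw [ShortComplex.moduleCat_exact_iff]
      intro u hu
      exact hsucc m u hu

/-- A complex of projectives satisfying elementwise exactness is a projective resolution. -/
noncomputable def mkRes (hproj : ∀ n, Projective (C.X n))
    (h0 : ∀ u : C.X 0, ε.hom u = 0 → ∃ v : C.X 1, (C.d 1 0).hom v = u)
    (hsucc : ∀ (m : ℕ) (u : C.X (m + 1)), (C.d (m + 1) m).hom u = 0 →
      ∃ v : C.X (m + 2), (C.d (m + 2) (m + 1)).hom v = u)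
    (hsurj : ∀ r : k, ∃ u : C.X 0, ε.hom u = r) : ProjectiveResolution (Rep.trivial k G k) where
  complex := C
  projective := hproj
  π := augMap C ε hε
  quasiIso := quasiIso_augMap C ε hε h0 hsucc hsurj

end Res

section Coh

variable (P : ProjectiveResolution (Rep.trivial k G k)) (A : Rep.{u} k G)

/-- vanishing of cohomology from exactness of the Hom complex, degree `n + 1` -/
theorem subsingleton_succ (n : ℕ)
    (h : ∀ f : P.complex.X (n + 1) ⟶ A, P.complex.d (n + 2) (n + 1) ≫ f = 0 →
      ∃ g : P.complex.X n ⟶ A, P.complex.d (n + 1) n ≫ g = f) :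
    Subsingleton (groupCohomology A (n + 1)) := by
  have e := groupCohomologyIso A (n + 1) P
  have hz : Limits.IsZero ((P.complex.linearYonedaObj k A).homology (n + 1)) := by
    rw [← HomologicalComplex.exactAt_iff_isZero_homology,
      HomologicalComplex.exactAt_iff' _ n (n + 1) (n + 2) (by simp) (by simp),
      ShortComplex.moduleCat_exact_iff]
    intro f hf
    exact h f hf
  exact ModuleCat.subsingleton_of_isZero (hz.of_iso e)

theorem subsingleton_zero
    (h : ∀ f : P.complex.X 0 ⟶ A, P.complex.d 1 0 ≫ f = 0 → f = 0) :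
    Subsingleton (groupCohomology A 0) := by
  have e := groupCohomologyIso A 0 P
  have hz : Limits.IsZero ((P.complex.linearYonedaObj k A).homology 0) := by
    rw [← HomologicalComplex.exactAt_iff_isZero_homology,
      HomologicalComplex.exactAt_iff' _ 0 0 1 (by simp) (by simp),
      ShortComplex.moduleCat_exact_iff]
    intro f hf
    refine ⟨0, ?_⟩
    rw [map_zero]
    exact (h f hf).symm
  exact ModuleCat.subsingleton_of_isZero (hz.of_iso e)

theorem homology_equiv {Z' : Type u} [AddCommGroup Z'] (S : ShortComplex (ModuleCat.{u} k))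
    (hg : ∀ f : S.X₂, S.g f = 0) (φ : S.X₂ →+ Z') (hφ : Function.Surjective φ)
    (hker : ∀ f : S.X₂, φ f = 0 ↔ ∃ g : S.X₁, S.f g = f) :
    Nonempty (S.homology ≃+ Z') := by
  let ψ : LinearMap.ker S.g.hom →+ Z' := φ.comp (LinearMap.ker S.g.hom).subtype.toAddMonoidHom
  have hψ : Function.Surjective ψ := by
    intro z
    obtain ⟨f, hf⟩ := hφ z
    exact ⟨⟨f, hg f⟩, hf⟩
  have hk : ψ.ker = (LinearMap.range S.moduleCatToCycles).toAddSubgroup := by
    ext ⟨f, hf⟩
    rw [AddMonoidHom.mem_ker, Submodule.mem_toAddSubgroup, LinearMap.mem_range]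
    change φ f = 0 ↔ _
    rw [hker]
    constructor
    · rintro ⟨g, hg⟩
      exact ⟨g, Subtype.ext hg⟩
    · rintro ⟨g, hg⟩
      exact ⟨g, congrArg Subtype.val hg⟩
  let e1 : S.homology ≃+ (LinearMap.ker S.g.hom ⧸ LinearMap.range S.moduleCatToCycles) :=
    (S.moduleCatHomologyIso.toLinearEquiv).toAddEquiv
  let e2 : (LinearMap.ker S.g.hom ⧸ LinearMap.range S.moduleCatToCycles) ≃+
      (LinearMap.ker S.g.hom ⧸ (LinearMap.range S.moduleCatToCycles).toAddSubgroup) :=
    AddEquiv.refl _
  let e3 : (LinearMap.ker S.g.hom ⧸ (LinearMap.range S.moduleCatToCycles).toAddSubgroup) ≃+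
      (LinearMap.ker S.g.hom ⧸ ψ.ker) := QuotientAddGroup.quotientAddEquivOfEq hk.symm
  exact ⟨e1.trans (e2.trans (e3.trans (QuotientAddGroup.quotientKerEquivOfSurjective ψ hψ)))⟩

theorem top_equiv {Z' : Type u} [AddCommGroup Z'] (n : ℕ)
    (hd : ∀ f : P.complex.X (n + 1) ⟶ A, P.complex.d (n + 2) (n + 1) ≫ f = 0)
    (φ : (P.complex.X (n + 1) ⟶ A) →+ Z') (hφ : Function.Surjective φ)
    (hker : ∀ f : P.complex.X (n + 1) ⟶ A, φ f = 0 ↔
      ∃ g : P.complex.X n ⟶ A, P.complex.d (n + 1) n ≫ g = f) :
    Nonempty (groupCohomology A (n + 1) ≃+ Z') := by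
  have e := groupCohomologyIso A (n + 1) P
  have e' := (P.complex.linearYonedaObj k A).homologyIsoSc' n (n + 1) (n + 2) (by simp) (by simp)
  obtain ⟨e''⟩ := homology_equiv ((P.complex.linearYonedaObj k A).sc' n (n + 1) (n + 2))
    hd φ hφ hker
  exact ⟨((e ≪≫ e').toLinearEquiv.toAddEquiv).trans e''⟩

end Coh

end Pool.Agent.Helper74.PD3
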