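import Mathlib

/-!
The group `Γ = ℤ² ⋊ ℤ`, the fundamental group of the torus bundle with monodromy
`-[[1,1],[0,1]]`.  The triple `(a, b, c)` stands for `x^a y^b t^c`.
-/

namespace Pool.Agent.Helper74.PD3

/-- The sign `(-1)^c`. -/
def sg (c : ℤ) : ℤ := (Int.negOnePow c : ℤ)

theorem sg_zero : sg 0 = 1 := by simp [sg]
theorem sg_one : sg 1 = -1 := by simp [sg]
theorem sg_add (c d : ℤ) : sg (c + d) = sg c * sg d := by simp [sg, Int.negOnePow_add]
theorem sg_mul_self (c : ℤ) : sg c * sg c = 1 := by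
  unfold sg
  rw [← Units.val_mul, Int.units_mul_self]; rfl
theorem sg_neg (c : ℤ) : sg (-c) = sg c := by simp [sg, Int.negOnePow_neg]
theorem sg_even {c : ℤ} (h : Even c) : sg c = 1 := by simp [sg, Int.negOnePow_even c h]
theorem sg_odd {c : ℤ} (h : Odd c) : sg c = -1 := by simp [sg, Int.negOnePow_odd c h]
theorem sg_cases (c : ℤ) : sg c = 1 ∨ sg c = -1 := by
  rcases Int.even_or_odd c with h | h
  · exact Or.inl (sg_even h)
  · exact Or.inr (sg_odd h)

/-- Elements of the group, `(a, b, c) = x^a y^b t^c`. -/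
@[ext]
structure Gam where
  a : ℤ
  b : ℤ
  c : ℤ

namespace Gam

instance : Mul Gam :=
  ⟨fun g h => ⟨g.a + sg g.c * (h.a + g.c * h.b), g.b + sg g.c * h.b, g.c + h.c⟩⟩

instance : One Gam := ⟨⟨0, 0, 0⟩⟩

instance : Inv Gam := ⟨fun g => ⟨sg g.c * (-g.a + g.c * g.b), -(sg g.c * g.b), -g.c⟩⟩

@[simp] theorem mul_a (g h : Gam) : (g * h).a = g.a + sg g.c * (h.a + g.c * h.b) := rfl
@[simp] theorem mul_b (g h : Gam) : (g * h).b = g.b + sg g.c * h.b := rfl
@[simp] theorem mul_c (g h : Gam) : (g * h).c = g.c + h.c := rfl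
@[simp] theorem one_a : (1 : Gam).a = 0 := rfl
@[simp] theorem one_b : (1 : Gam).b = 0 := rfl
@[simp] theorem one_c : (1 : Gam).c = 0 := rfl
@[simp] theorem inv_a (g : Gam) : (g⁻¹).a = sg g.c * (-g.a + g.c * g.b) := rfl
@[simp] theorem inv_b (g : Gam) : (g⁻¹).b = -(sg g.c * g.b) := rfl
@[simp] theorem inv_c (g : Gam) : (g⁻¹).c = -g.c := rfl

instance : Group Gam where
  mul := (· * ·)
  one := 1
  inv := Inv.inv
  mul_assoc g h k := by
    have e := sg_add g.c h.c
    apply Gam.ext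
    · simp only [mul_a, mul_b, mul_c, e]; ring
    · simp only [mul_b, mul_c, e]; ring
    · simp only [mul_c]; ring
  one_mul g := by
    apply Gam.ext <;> simp [sg_zero]
  mul_one g := by
    apply Gam.ext <;> simp
  inv_mul_cancel g := by
    have e := sg_mul_self g.c
    apply Gam.ext
    · simp only [mul_a, inv_a, inv_b, inv_c, one_a, sg_neg]
      linear_combination 0
    · simp only [mul_b, inv_b, inv_c, one_b, sg_neg]; ring
    · simp

/-- generator `x` -/
def x : Gam := ⟨1, 0, 0⟩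
/-- generator `y` -/
def y : Gam := ⟨0, 1, 0⟩
/-- generator `t` -/
def t : Gam := ⟨0, 0, 1⟩

@[simp] theorem x_a : x.a = 1 := rfl
@[simp] theorem x_b : x.b = 0 := rfl
@[simp] theorem x_c : x.c = 0 := rfl
@[simp] theorem y_a : y.a = 0 := rfl
@[simp] theorem y_b : y.b = 1 := rfl
@[simp] theorem y_c : y.c = 0 := rfl
@[simp] theorem t_a : t.a = 0 := rfl
@[simp] theorem t_b : t.b = 0 := rfl
@[simp] theorem t_c : t.c = 1 := rfl

theorem x_mul_y : x * y = y * x := by
  apply Gam.ext <;> simp [sg_zero]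

theorem x_mul_t : x * t = t * x⁻¹ := by
  apply Gam.ext <;> simp [sg_zero, sg_one]

theorem y_mul_t : y * t = t * (x * y⁻¹) := by
  apply Gam.ext <;> simp [sg_zero, sg_one]

end Gam

end Pool.Agent.Helper74.PD3
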