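import Mathlib

/-!
Abstract algebra for the three-step Koszul type complex (iterated mapping cone).
-/

namespace Pool.Agent.Helper74.PD3

section Cone

variable {M : Type*} [AddCommGroup M]

/-- Data for a three-dimensional Koszul type complex
`M → M³ → M³ → M` built from additive endomorphisms of `M`. -/
structure KData (M : Type*) [AddCommGroup M] where
  α : M →+ M
  β : M →+ M
  T : M →+ M
  /-- first component of `τ₁` -/
  τx : M × M →+ M
  /-- second component of `τ₁` -/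
  τy : M × M →+ M
  W : M →+ M
  comm : ∀ w, α (β w) = β (α w)
  chain1 : ∀ v : M × M, T (α v.1 + β v.2) = α (τx v) + β (τy v)
  chain2x : ∀ w : M, τx (-(β w), α w) = -(β (W w))
  chain2y : ∀ w : M, τy (-(β w), α w) = α (W w)
  h1 : ∀ w, α w = 0 → w = 0
  h2 : ∀ u w, β u = α w → ∃ w', u = α w'
  h3 : ∀ u v w, T u - u = α v + β w → ∃ v' w', u = α v' + β w'

namespace KData

variable (K : KData M)

/-- degree one differential -/
def d1 (u : M × M × M) : M := K.α u.1 + K.β u.2.1 + (K.T u.2.2 - u.2.2)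

/-- degree two differential, `(w, v₁, v₂) ↦ ` -/
def d2 (u : M × M × M) : M × M × M :=
  (-(K.β u.1) + (K.τx (u.2.1, u.2.2) - u.2.1),
    K.α u.1 + (K.τy (u.2.1, u.2.2) - u.2.2),
    -(K.α u.2.1 + K.β u.2.2))

/-- degree three differential -/
def d3 (w : M) : M × M × M := (K.W w - w, K.β w, -(K.α w))

theorem two_exact (v w : M) (h : K.α v + K.β w = 0) :
    ∃ m, v = -(K.β m) ∧ w = K.α m := by
  obtain ⟨m, hm⟩ := K.h2 w (-v) (by rw [map_neg]; exact eq_neg_of_add_eq_zero_right h)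
  refine ⟨m, ?_, hm⟩
  have : K.α (v + K.β m) = 0 := by
    rw [map_add, K.comm, ← hm, h]
  exact eq_neg_of_add_eq_zero_left (K.h1 _ this)

theorem d1_d2 (u : M × M × M) : K.d1 (K.d2 u) = 0 := by
  obtain ⟨w, v1, v2⟩ := u
  have h := K.chain1 (v1, v2)
  simp only [d1, d2, map_add, map_neg, map_sub] at *
  rw [K.comm w]
  rw [← sub_eq_zero] at h
  rw [← neg_zero, ← h]
  abel

theorem d2_d3 (w : M) : K.d2 (K.d3 w) = 0 := by
  have e : ((K.β w, -(K.α w)) : M × M) = -(-(K.β w), K.α w) := by simp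
  have h1 : K.τx (K.β w, -(K.α w)) = K.β (K.W w) := by
    rw [e, map_neg, K.chain2x w, neg_neg]
  have h2 : K.τy (K.β w, -(K.α w)) = -(K.α (K.W w)) := by
    rw [e, map_neg, K.chain2y w]
  simp only [d2, d3, h1, h2, map_sub, map_neg, K.comm w, Prod.mk_eq_zero]
  refine ⟨by abel, by abel, by abel⟩

theorem d3_inj (w : M) (h : K.d3 w = 0) : w = 0 := by
  simp only [d3, Prod.mk_eq_zero] at h
  exact K.h1 w (by simpa using h.2.2)

theorem exact2 (u : M × M × M) (h : K.d2 u = 0) : ∃ w, K.d3 w = u := by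
  obtain ⟨w, v1, v2⟩ := u
  simp only [d2, Prod.mk_eq_zero] at h
  obtain ⟨ha, hb, hc⟩ := h
  obtain ⟨m, hm1, hm2⟩ := K.two_exact v1 v2 (neg_eq_zero.mp hc)
  subst hm1 hm2
  have hx := K.chain2x m
  have hy := K.chain2y m
  refine ⟨-m, ?_⟩
  rw [hy] at hb
  have h0 : K.α (w + K.W m - m) = 0 := by
    rw [map_sub, map_add, ← hb]; abel
  have h1 := K.h1 _ h0
  have h2 : w = -(K.W m) + m := by
    rw [← sub_eq_zero, ← h1]; abel
  subst h2
  simp only [d3, map_neg, Prod.mk.injEq]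
  refine ⟨by abel, trivial, by abel⟩

theorem exact1 (u : M × M × M) (h : K.d1 u = 0) : ∃ w, K.d2 w = u := by
  obtain ⟨u1, u2, z⟩ := u
  simp only [d1] at h
  obtain ⟨v', w', hz⟩ := K.h3 z (-u1) (-u2) (by
    rw [map_neg, map_neg, ← sub_eq_zero, ← h]; abel)
  -- z = α v' + β w'
  have hch := K.chain1 (v', w')
  simp only at hch
  subst hz
  rw [hch] at h
  have h' : K.α (u1 + K.τx (v', w') - v') + K.β (u2 + K.τy (v', w') - w') = 0 := by
    rw [← h]; simp only [map_add, map_sub]; abel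
  obtain ⟨m, hm1, hm2⟩ := K.two_exact _ _ h'
  refine ⟨(m, -v', -w'), ?_⟩
  have e : ((-v', -w') : M × M) = -(v', w') := by simp
  simp only [d2, e, map_neg, Prod.mk.injEq]
  refine ⟨?_, ?_, by abel⟩
  · rw [← hm1]; abel
  · rw [← hm2]; abel

end KData

end Cone

section Perm

variable {X Y : Type*}

open Finsupp

theorem fixed_eq_zero (σ : Equiv.Perm X) (hfree : ∀ (x : X) (n : ℤ), (σ ^ n) x = x → n = 0)
    (u : X →₀ ℤ) (hu : u.mapDomain σ = u) : u = 0 := by
  have h1 : ∀ x, u (σ x) = u x := by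
    intro x
    have := Finsupp.mapDomain_apply σ.injective u x
    rw [hu] at this
    exact this
  have h1' : ∀ x, u (σ.symm x) = u x := by
    intro x
    have := h1 (σ.symm x)
    simpa using this.symm
  have h2 : ∀ (n : ℤ) x, u ((σ ^ n) x) = u x := by
    intro n
    induction n using Int.induction_on with
    | zero => intro x; simp
    | succ i ih =>
      intro x
      rw [zpow_add_one, Equiv.Perm.mul_apply, ih, h1]
    | pred i ih =>
      intro x
      rw [zpow_sub_one, Equiv.Perm.mul_apply, ih]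
      exact h1' x
  ext x
  by_contra hx
  have hx' : u x ≠ 0 := hx
  have hinj : Function.Injective (fun n : ℤ => (σ ^ n) x) := by
    intro m n hmn
    simp only at hmn
    have : (σ ^ (m - n)) ((σ ^ n) x) = (σ ^ n) x := by
      rw [← Equiv.Perm.mul_apply, ← zpow_add, sub_add_cancel, hmn]
    have := hfree _ _ this
    omega
  have hsub : Set.range (fun n : ℤ => (σ ^ n) x) ⊆ (u.support : Set X) := by
    rintro _ ⟨n, rfl⟩
    simp only [Finset.mem_coe, Finsupp.mem_support_iff]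
    rw [h2]; exact hx'
  exact Set.infinite_range_of_injective hinj (u.support.finite_toSet.subset hsub)

theorem single_sub_single_mem (σ : Equiv.Perm X) (x : X) (n : ℤ) (r : ℤ) :
    ∃ v : X →₀ ℤ, Finsupp.single ((σ ^ n) x) r - Finsupp.single x r = v.mapDomain σ - v := by
  induction n using Int.induction_on with
  | zero => exact ⟨0, by simp⟩
  | succ i ih =>
    obtain ⟨v, hv⟩ := ih
    refine ⟨v + Finsupp.single ((σ ^ (i : ℤ)) x) r, ?_⟩
    have : σ ^ ((i : ℤ) + 1) = σ * σ ^ (i : ℤ) := by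
      rw [zpow_add_one, (Commute.refl σ).zpow_right _ |>.eq]
    rw [this, Equiv.Perm.mul_apply, Finsupp.mapDomain_add, Finsupp.mapDomain_single]
    rw [← sub_eq_zero] at hv ⊢
    rw [← hv]
    abel
  | pred i ih =>
    obtain ⟨v, hv⟩ := ih
    refine ⟨v - Finsupp.single ((σ ^ (-(i : ℤ) - 1)) x) r, ?_⟩
    have h2 : σ ((σ ^ (-(i : ℤ) - 1)) x) = (σ ^ (-(i : ℤ))) x := by
      rw [← Equiv.Perm.mul_apply]
      congr 1
      have : σ * σ ^ (-(i : ℤ) - 1) = σ ^ (1 + (-(i : ℤ) - 1)) := by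
        rw [zpow_add, zpow_one]
      rw [this]; congr 1; ring
    have h3 : Finsupp.mapDomain σ (v - Finsupp.single ((σ ^ (-(i : ℤ) - 1)) x) r)
        = v.mapDomain σ - Finsupp.single ((σ ^ (-(i : ℤ))) x) r := by
      rw [sub_eq_add_neg, Finsupp.mapDomain_add, ← Finsupp.single_neg, Finsupp.mapDomain_single,
        h2, Finsupp.single_neg, sub_eq_add_neg]
    rw [h3]
    rw [← sub_eq_zero] at hv ⊢
    rw [← hv]
    abel

theorem mem_range_of_mapDomain_eq_zero (σ : Equiv.Perm X) (q : X → Y)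
    (hq : ∀ x x', q x = q x' → ∃ n : ℤ, (σ ^ n) x = x')
    (u : X →₀ ℤ) (hu : u.mapDomain q = 0) : ∃ v : X →₀ ℤ, v.mapDomain σ - v = u := by
  rcases isEmpty_or_nonempty X with hX | hX
  · exact ⟨0, by ext x; exact hX.elim x⟩
  · have key : ∀ w : X →₀ ℤ, ∃ v : X →₀ ℤ,
        w.mapDomain (Function.invFun q ∘ q) - w = v.mapDomain σ - v := by
      intro w
      induction w using Finsupp.induction_linear with
      | zero => exact ⟨0, by simp⟩
      | add f g hf hg =>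
        obtain ⟨a, ha⟩ := hf
        obtain ⟨b, hb⟩ := hg
        refine ⟨a + b, ?_⟩
        rw [Finsupp.mapDomain_add, Finsupp.mapDomain_add]
        calc _ = (Finsupp.mapDomain (Function.invFun q ∘ q) f - f) +
              (Finsupp.mapDomain (Function.invFun q ∘ q) g - g) := by abel
          _ = _ := by rw [ha, hb]; abel
      | single x r =>
        have h1 : q x = q (Function.invFun q (q x)) :=
          (Function.invFun_eq (f := q) ⟨x, rfl⟩).symm
        obtain ⟨n, hn⟩ := hq _ _ h1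
        obtain ⟨v, hv⟩ := single_sub_single_mem σ x n r
        refine ⟨v, ?_⟩
        rw [Finsupp.mapDomain_single, ← hv, Function.comp_apply, hn]
    obtain ⟨v, hv⟩ := key u
    refine ⟨-v, ?_⟩
    rw [Finsupp.mapDomain_comp, hu, Finsupp.mapDomain_zero, zero_sub] at hv
    have hneg : Finsupp.mapDomain σ (-v) = -(Finsupp.mapDomain σ v) :=
      map_neg (Finsupp.mapDomain.addMonoidHom σ) v
    rw [hneg]
    have := congrArg Neg.neg hv
    rw [neg_neg] at this
    rw [this]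
    abel

end Perm

section Tower

variable {M₀ M₁ M₂ M₃ : Type*} [AddCommGroup M₀] [AddCommGroup M₁] [AddCommGroup M₂]
  [AddCommGroup M₃]

/-- A tower of successive cokernels. -/
structure Tower (α β T : M₀ →+ M₀) (π₁ : M₀ →+ M₁) (β₁ : M₁ →+ M₁) (π₂ : M₁ →+ M₂)
    (T₂ : M₂ →+ M₂) (π₃ : M₂ →+ M₃) : Prop where
  α_inj : ∀ w, α w = 0 → w = 0
  π₁_α : ∀ w, π₁ (α w) = 0
  π₁_ker : ∀ u, π₁ u = 0 → ∃ w, u = α w
  π₁_surj : Function.Surjective π₁
  π₁_β : ∀ u, π₁ (β u) = β₁ (π₁ u)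
  β₁_inj : ∀ w, β₁ w = 0 → w = 0
  π₂_β₁ : ∀ w, π₂ (β₁ w) = 0
  π₂_ker : ∀ u, π₂ u = 0 → ∃ w, u = β₁ w
  π₂_surj : Function.Surjective π₂
  π₂_T : ∀ u, π₂ (π₁ (T u)) = T₂ (π₂ (π₁ u))
  T₂_inj : ∀ w, T₂ w = w → w = 0
  π₃_T₂ : ∀ w, π₃ (T₂ w - w) = 0
  π₃_ker : ∀ u, π₃ u = 0 → ∃ w, u = T₂ w - w

namespace Tower

variable {α β T : M₀ →+ M₀} {π₁ : M₀ →+ M₁} {β₁ : M₁ →+ M₁} {π₂ : M₁ →+ M₂}
    {T₂ : M₂ →+ M₂} {π₃ : M₂ →+ M₃} (h : Tower α β T π₁ β₁ π₂ T₂ π₃)
include h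

theorem t2 (u w : M₀) (hu : β u = α w) : ∃ w', u = α w' := by
  apply h.π₁_ker
  apply h.β₁_inj
  rw [← h.π₁_β, hu, h.π₁_α]

theorem ker2 (u : M₀) (hu : π₂ (π₁ u) = 0) : ∃ v w, u = α v + β w := by
  obtain ⟨w, hw⟩ := h.π₂_ker _ hu
  obtain ⟨w', rfl⟩ := h.π₁_surj w
  obtain ⟨v, hv⟩ := h.π₁_ker (u - β w') (by rw [map_sub, hw, h.π₁_β, sub_self])
  exact ⟨v, w', by rw [← hv]; abel⟩

theorem π₂_α (v : M₀) : π₂ (π₁ (α v)) = 0 := by rw [h.π₁_α, map_zero]

theorem π₂_β (v : M₀) : π₂ (π₁ (β v)) = 0 := by rw [h.π₁_β, h.π₂_β₁]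

theorem t3 (u v w : M₀) (hu : T u - u = α v + β w) : ∃ v' w', u = α v' + β w' := by
  apply h.ker2
  apply h.T₂_inj
  have := congrArg (fun z => π₂ (π₁ z)) hu
  simp only [map_sub, map_add, h.π₂_α, h.π₂_β, add_zero, h.π₂_T] at this
  exact sub_eq_zero.mp this

theorem t4 (u : M₀) (hu : π₃ (π₂ (π₁ u)) = 0) : ∃ v w z, u = α v + β w + (T z - z) := by
  obtain ⟨z, hz⟩ := h.π₃_ker _ hu
  obtain ⟨z', rfl⟩ := h.π₂_surj z
  obtain ⟨z'', rfl⟩ := h.π₁_surj z'
  obtain ⟨v, w, hvw⟩ := h.ker2 (u - (T z'' - z'')) (by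
    rw [map_sub, map_sub, map_sub, map_sub, hz, h.π₂_T, sub_self])
  exact ⟨v, w, z'', by rw [← hvw]; abel⟩

theorem t4' (v w z : M₀) : π₃ (π₂ (π₁ (α v + β w + (T z - z)))) = 0 := by
  rw [map_add, map_add, map_add, map_add, map_add, h.π₂_α, h.π₂_β, map_sub, map_sub, h.π₂_T,
    h.π₃_T₂]
  simp

end Tower

end Tower

end Pool.Agent.Helper74.PD3
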