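import Mathlib
import Pool.Agent.Helper74.PD3.Koszul
import Pool.Agent.Helper74.PD3.Grp

/-!
The two Koszul data (left and right multiplication) over the integral group ring of `Gam`.
-/

namespace Pool.Agent.Helper74.PD3

open MonoidAlgebra

/-- The integral group ring. -/
abbrev ZG := MonoidAlgebra ℤ Gam

/-- The basis element of the group ring attached to a group element. -/
noncomputable def δ (g : Gam) : ZG := MonoidAlgebra.single g 1

theorem δ_mul (g h : Gam) : δ g * δ h = δ (g * h) := by simp [δ]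
theorem δ_one : δ 1 = 1 := rfl

theorem δx_δy : δ Gam.x * δ Gam.y = δ Gam.y * δ Gam.x := by
  rw [δ_mul, δ_mul, Gam.x_mul_y]

theorem δx_δt : δ Gam.x * δ Gam.t = δ Gam.t * δ Gam.x⁻¹ := by
  rw [δ_mul, δ_mul, Gam.x_mul_t]

theorem δy_δt : δ Gam.y * δ Gam.t = δ Gam.t * (δ Gam.x * δ Gam.y⁻¹) := by
  rw [δ_mul, δ_mul, δ_mul, Gam.y_mul_t]

theorem δx_inv : δ Gam.x * δ Gam.x⁻¹ = 1 := by rw [δ_mul, mul_inv_cancel, δ_one]
theorem δx_inv' : δ Gam.x⁻¹ * δ Gam.x = 1 := by rw [δ_mul, inv_mul_cancel, δ_one]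
theorem δy_inv : δ Gam.y * δ Gam.y⁻¹ = 1 := by rw [δ_mul, mul_inv_cancel, δ_one]
theorem δy_inv' : δ Gam.y⁻¹ * δ Gam.y = 1 := by rw [δ_mul, inv_mul_cancel, δ_one]

theorem coeff_mul_δ (u : ZG) (g : Gam) :
    (u * δ g).coeff = u.coeff.mapDomain (Equiv.mulRight g) := by
  induction u using MonoidAlgebra.induction_linear with
  | zero => simp
  | add a b ha hb => rw [add_mul, coeff_add, ha, hb, coeff_add, Finsupp.mapDomain_add]
  | single h r => simp [δ, Finsupp.mapDomain_single]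

theorem coeff_δ_mul (u : ZG) (g : Gam) :
    (δ g * u).coeff = u.coeff.mapDomain (Equiv.mulLeft g) := by
  induction u using MonoidAlgebra.induction_linear with
  | zero => simp
  | add a b ha hb => rw [mul_add, coeff_add, ha, hb, coeff_add, Finsupp.mapDomain_add]
  | single h r => simp [δ, Finsupp.mapDomain_single]

/-- projection to the `(b, c)` coordinates -/
def q₁ (g : Gam) : ℤ × ℤ := (g.b, g.c)

/-- first quotient map -/
noncomputable def π₁ : ZG →+ ((ℤ × ℤ) →₀ ℤ) :=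
  (Finsupp.mapDomain.addMonoidHom q₁).comp (coeffAddEquiv : ZG ≃+ (Gam →₀ ℤ)).toAddMonoidHom

theorem π₁_apply (u : ZG) : π₁ u = u.coeff.mapDomain q₁ := rfl

/-- second quotient map -/
noncomputable def π₂ : ((ℤ × ℤ) →₀ ℤ) →+ (ℤ →₀ ℤ) := Finsupp.mapDomain.addMonoidHom Prod.snd

theorem π₂_apply (u : (ℤ × ℤ) →₀ ℤ) : π₂ u = u.mapDomain Prod.snd := rfl

/-- third quotient map -/
noncomputable def π₃ : (ℤ →₀ ℤ) →+ ℤ := Finsupp.liftAddHom (fun _ => AddMonoidHom.id ℤ)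

theorem π₃_single (n r : ℤ) : π₃ (Finsupp.single n r) = r := by simp [π₃]

theorem mapDomain_unit (u : ℤ →₀ ℤ) : u.mapDomain (fun _ => ()) = Finsupp.single () (π₃ u) := by
  induction u using Finsupp.induction_linear with
  | zero => simp
  | add a b ha hb => rw [Finsupp.mapDomain_add, ha, hb, map_add, Finsupp.single_add]
  | single n r => rw [Finsupp.mapDomain_single, π₃_single]

theorem π₁_surj : Function.Surjective π₁ := by
  intro v
  refine ⟨MonoidAlgebra.ofCoeff (v.mapDomain (fun p => (⟨0, p.1, p.2⟩ : Gam))), ?_⟩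
  rw [π₁_apply, coeff_ofCoeff, ← Finsupp.mapDomain_comp]
  have : (q₁ ∘ fun p : ℤ × ℤ => (⟨0, p.1, p.2⟩ : Gam)) = id := by
    funext p; rfl
  rw [this, Finsupp.mapDomain_id]

theorem π₂_surj : Function.Surjective π₂ := by
  intro v
  refine ⟨v.mapDomain (fun n => ((0 : ℤ), n)), ?_⟩
  rw [π₂_apply, ← Finsupp.mapDomain_comp]
  have : (Prod.snd ∘ fun n : ℤ => ((0 : ℤ), n)) = id := by
    funext p; rfl
  rw [this, Finsupp.mapDomain_id]

/-- the shift on `ℤ` -/
def σ₃ : Equiv.Perm ℤ := Equiv.addRight 1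

theorem σ₃_zpow (n m : ℤ) : (σ₃ ^ n) m = m + n := by
  induction n using Int.induction_on generalizing m with
  | zero => simp
  | succ i ih => rw [zpow_add_one, Equiv.Perm.mul_apply, ih]; simp [σ₃]; ring
  | pred i ih =>
    rw [zpow_sub_one, Equiv.Perm.mul_apply, ih]
    have : σ₃⁻¹ m = m - 1 := by
      rw [Equiv.Perm.inv_eq_iff_eq]; simp [σ₃]
    rw [this]; ring

/-- Translation by a sign in the first coordinate. -/
def σ₂ (s : ℤ → ℤ) : Equiv.Perm (ℤ × ℤ) where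
  toFun p := (p.1 + s p.2, p.2)
  invFun p := (p.1 - s p.2, p.2)
  left_inv p := by simp
  right_inv p := by simp

theorem σ₂_zpow (s : ℤ → ℤ) (n : ℤ) (p : ℤ × ℤ) : ((σ₂ s) ^ n) p = (p.1 + n * s p.2, p.2) := by
  induction n using Int.induction_on generalizing p with
  | zero => simp
  | succ i ih => rw [zpow_add_one, Equiv.Perm.mul_apply, ih]; simp [σ₂]; ring
  | pred i ih =>
    rw [zpow_sub_one, Equiv.Perm.mul_apply, ih]
    have : (σ₂ s)⁻¹ p = (p.1 - s p.2, p.2) := by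
      rw [Equiv.Perm.inv_eq_iff_eq]; simp [σ₂]
    rw [this]; simp; ring

/-- the second-step endomorphism -/
noncomputable def β₁ (s : ℤ → ℤ) : ((ℤ × ℤ) →₀ ℤ) →+ ((ℤ × ℤ) →₀ ℤ) :=
  Finsupp.mapDomain.addMonoidHom (σ₂ s) - AddMonoidHom.id _

theorem β₁_apply (s : ℤ → ℤ) (u : (ℤ × ℤ) →₀ ℤ) : β₁ s u = u.mapDomain (σ₂ s) - u := rfl

/-- the third-step endomorphism -/
noncomputable def T₂ : (ℤ →₀ ℤ) →+ (ℤ →₀ ℤ) := Finsupp.mapDomain.addMonoidHom σ₃

theorem T₂_apply (u : ℤ →₀ ℤ) : T₂ u = u.mapDomain σ₃ := rfl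

theorem x_zpow (n : ℤ) : Gam.x ^ n = ⟨n, 0, 0⟩ := by
  induction n using Int.induction_on with
  | zero => rfl
  | succ i ih => rw [zpow_add_one, ih]; apply Gam.ext <;> simp [sg_zero]
  | pred i ih => rw [zpow_sub_one, ih]; apply Gam.ext <;> simp [sg_zero]; ring

theorem mulRight_zpow (g : Gam) (n : ℤ) (h : Gam) : ((Equiv.mulRight g) ^ n) h = h * g ^ n := by
  induction n using Int.induction_on generalizing h with
  | zero => simp
  | succ i ih =>
    rw [zpow_add_one, Equiv.Perm.mul_apply, ih, zpow_add_one, Equiv.coe_mulRight, mul_assoc,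
      (Commute.refl g).zpow_right _ |>.eq]
  | pred i ih =>
    rw [zpow_sub_one, Equiv.Perm.mul_apply, ih, zpow_sub_one]
    have : (Equiv.mulRight g)⁻¹ h = h * g⁻¹ := by
      rw [Equiv.Perm.inv_eq_iff_eq]; simp
    rw [this, mul_assoc, ((Commute.refl g).inv_left.zpow_right _).eq]

theorem mulLeft_zpow (g : Gam) (n : ℤ) (h : Gam) : ((Equiv.mulLeft g) ^ n) h = g ^ n * h := by
  induction n using Int.induction_on generalizing h with
  | zero => simp
  | succ i ih =>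
    rw [zpow_add_one, Equiv.Perm.mul_apply, ih, zpow_add_one, Equiv.coe_mulLeft, mul_assoc]
  | pred i ih =>
    rw [zpow_sub_one, Equiv.Perm.mul_apply, ih, zpow_sub_one]
    have : (Equiv.mulLeft g)⁻¹ h = g⁻¹ * h := by
      rw [Equiv.Perm.inv_eq_iff_eq]; simp
    rw [this, mul_assoc]

/-- Right multiplication by `δ g - 1`. -/
noncomputable def rmul (r : ZG) : ZG →+ ZG := AddMonoidHom.mulRight r
/-- Left multiplication. -/
noncomputable def lmul (r : ZG) : ZG →+ ZG := AddMonoidHom.mulLeft r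

@[simp] theorem rmul_apply (r u : ZG) : rmul r u = u * r := rfl
@[simp] theorem lmul_apply (r u : ZG) : lmul r u = r * u := rfl

theorem sg_ne_zero (c : ℤ) : sg c ≠ 0 := by
  rcases sg_cases c with h | h <;> rw [h] <;> decide

theorem π₁_mul_δ (u : ZG) (g : Gam) (f : ℤ × ℤ → ℤ × ℤ) (hf : ∀ h, q₁ (h * g) = f (q₁ h)) :
    π₁ (u * δ g) = (π₁ u).mapDomain f := by
  rw [π₁_apply, coeff_mul_δ, ← Finsupp.mapDomain_comp, π₁_apply, ← Finsupp.mapDomain_comp]
  congr 1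
  funext h
  exact hf h

theorem π₁_δ_mul (u : ZG) (g : Gam) (f : ℤ × ℤ → ℤ × ℤ) (hf : ∀ h, q₁ (g * h) = f (q₁ h)) :
    π₁ (δ g * u) = (π₁ u).mapDomain f := by
  rw [π₁_apply, coeff_δ_mul, ← Finsupp.mapDomain_comp, π₁_apply, ← Finsupp.mapDomain_comp]
  congr 1
  funext h
  exact hf h

theorem β₁_inj (s : ℤ → ℤ) (hs : ∀ c, s c ≠ 0) (w : (ℤ × ℤ) →₀ ℤ) (h : β₁ s w = 0) : w = 0 := by
  apply fixed_eq_zero (σ₂ s)
  · intro p n hn
    rw [σ₂_zpow] at hn
    have := congrArg Prod.fst hn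
    simp only [add_eq_left, mul_eq_zero] at this
    exact this.resolve_right (hs _)
  · rw [β₁_apply] at h; exact sub_eq_zero.mp h

theorem π₂_β₁ (s : ℤ → ℤ) (w : (ℤ × ℤ) →₀ ℤ) : π₂ (β₁ s w) = 0 := by
  rw [β₁_apply, map_sub, π₂_apply, ← Finsupp.mapDomain_comp]
  exact sub_self _

theorem π₂_ker (s : ℤ → ℤ) (hs : ∀ c, s c = 1 ∨ s c = -1) (u : (ℤ × ℤ) →₀ ℤ) (h : π₂ u = 0) :
    ∃ w, u = β₁ s w := by
  obtain ⟨v, hv⟩ := mem_range_of_mapDomain_eq_zero (σ₂ s) Prod.snd (by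
    intro p p' hpp
    refine ⟨(p'.1 - p.1) * s p.2, ?_⟩
    rw [σ₂_zpow]
    refine Prod.ext ?_ hpp
    have : s p.2 * s p.2 = 1 := by rcases hs p.2 with h | h <;> rw [h] <;> norm_num
    simp only
    rw [mul_assoc, this]; ring) u h
  exact ⟨v, by rw [β₁_apply, hv]⟩

theorem T₂_inj (w : ℤ →₀ ℤ) (h : T₂ w = w) : w = 0 := by
  apply fixed_eq_zero σ₃
  · intro p n hn
    rw [σ₃_zpow] at hn
    omega
  · exact h

theorem π₃_T₂ (w : ℤ →₀ ℤ) : π₃ (T₂ w - w) = 0 := by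
  rw [map_sub, sub_eq_zero]
  induction w using Finsupp.induction_linear with
  | zero => simp
  | add a b ha hb => rw [map_add, map_add, map_add, ha, hb]
  | single n r => rw [T₂_apply, Finsupp.mapDomain_single, π₃_single, π₃_single]

theorem π₃_ker (u : ℤ →₀ ℤ) (h : π₃ u = 0) : ∃ w, u = T₂ w - w := by
  obtain ⟨v, hv⟩ := mem_range_of_mapDomain_eq_zero σ₃ (fun _ => ()) (by
    intro p p' _
    refine ⟨p' - p, ?_⟩
    rw [σ₃_zpow]; ring) u (by rw [mapDomain_unit, h, Finsupp.single_zero])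
  exact ⟨v, by rw [T₂_apply, hv]⟩

/-- The tower for right multiplication. -/
theorem towerR : Tower (rmul (δ Gam.x - 1)) (rmul (δ Gam.y - 1)) (rmul (δ Gam.t))
    π₁ (β₁ sg) π₂ T₂ π₃ where
  α_inj w hw := by
    rw [rmul_apply, mul_sub, mul_one, sub_eq_zero] at hw
    have h2 := congrArg MonoidAlgebra.coeff hw
    rw [coeff_mul_δ] at h2
    apply MonoidAlgebra.coeff_injective
    apply fixed_eq_zero (Equiv.mulRight Gam.x) _ _ h2
    intro h n hn
    rw [mulRight_zpow, x_zpow] at hn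
    have := congrArg Gam.a hn
    simp only [Gam.mul_a, mul_zero, add_zero, add_eq_left, mul_eq_zero] at this
    exact this.resolve_left (sg_ne_zero _)
  π₁_α w := by
    rw [rmul_apply, mul_sub, mul_one, map_sub, π₁_mul_δ w Gam.x id (by intro h; simp [q₁]),
      Finsupp.mapDomain_id, sub_self]
  π₁_ker u hu := by
    obtain ⟨v, hv⟩ := mem_range_of_mapDomain_eq_zero (Equiv.mulRight Gam.x) q₁ (by
      intro g g' hg
      refine ⟨(g'.a - g.a) * sg g.c, ?_⟩
      rw [mulRight_zpow, x_zpow]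
      simp only [q₁, Prod.mk.injEq] at hg
      apply Gam.ext
      · have := sg_mul_self g.c
        simp only [Gam.mul_a]
        linear_combination (g'.a - g.a) * this
      · simp [hg.1]
      · simp [hg.2]) u.coeff hu
    refine ⟨MonoidAlgebra.ofCoeff v, ?_⟩
    apply MonoidAlgebra.coeff_injective
    rw [rmul_apply, mul_sub, mul_one]
    have : (MonoidAlgebra.ofCoeff v * δ Gam.x - MonoidAlgebra.ofCoeff v : ZG).coeff =
      (MonoidAlgebra.ofCoeff v * δ Gam.x).coeff - v := rfl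
    rw [this, coeff_mul_δ, ← hv]
  π₁_surj := π₁_surj
  π₁_β u := by
    rw [rmul_apply, mul_sub, mul_one, map_sub, β₁_apply, π₁_mul_δ u Gam.y (σ₂ sg)
      (by intro h; simp [q₁, σ₂])]
  β₁_inj := β₁_inj sg sg_ne_zero
  π₂_β₁ := π₂_β₁ sg
  π₂_ker := π₂_ker sg sg_cases
  π₂_surj := π₂_surj
  π₂_T u := by
    rw [rmul_apply, π₁_mul_δ u Gam.t (fun p => (p.1, p.2 + 1)) (by intro h; simp [q₁]),
      π₂_apply, ← Finsupp.mapDomain_comp, T₂_apply, π₂_apply, ← Finsupp.mapDomain_comp]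
    rfl
  T₂_inj := T₂_inj
  π₃_T₂ := π₃_T₂
  π₃_ker := π₃_ker

/-- The tower for left multiplication. -/
theorem towerL : Tower (lmul (1 - δ Gam.x)) (lmul (δ Gam.y - 1)) (lmul (δ Gam.t * δ Gam.y⁻¹))
    π₁ (β₁ (fun _ => 1)) π₂ T₂ π₃ where
  α_inj w hw := by
    rw [lmul_apply, sub_mul, one_mul, sub_eq_zero] at hw
    have h2 := congrArg MonoidAlgebra.coeff hw
    rw [coeff_δ_mul] at h2
    apply MonoidAlgebra.coeff_injective
    apply fixed_eq_zero (Equiv.mulLeft Gam.x) _ _ h2.symm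
    intro h n hn
    rw [mulLeft_zpow, x_zpow] at hn
    have := congrArg Gam.a hn
    simpa [sg_zero] using this
  π₁_α w := by
    rw [lmul_apply, sub_mul, one_mul, map_sub, π₁_δ_mul w Gam.x id
      (by intro h; simp [q₁, sg_zero]), Finsupp.mapDomain_id, sub_self]
  π₁_ker u hu := by
    obtain ⟨v, hv⟩ := mem_range_of_mapDomain_eq_zero (Equiv.mulLeft Gam.x) q₁ (by
      intro g g' hg
      refine ⟨(g'.a - g.a), ?_⟩
      rw [mulLeft_zpow, x_zpow]
      simp only [q₁, Prod.mk.injEq] at hg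
      apply Gam.ext
      · simp [sg_zero]
      · simp [hg.1, sg_zero]
      · simp [hg.2]) u.coeff hu
    refine ⟨-MonoidAlgebra.ofCoeff v, ?_⟩
    apply MonoidAlgebra.coeff_injective
    rw [lmul_apply, sub_mul, one_mul, mul_neg, sub_neg_eq_add, add_comm, ← sub_eq_add_neg]
    have : (δ Gam.x * MonoidAlgebra.ofCoeff v - MonoidAlgebra.ofCoeff v : ZG).coeff =
      (δ Gam.x * MonoidAlgebra.ofCoeff v).coeff - v := rfl
    rw [this, coeff_δ_mul, ← hv]
  π₁_surj := π₁_surj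
  π₁_β u := by
    rw [lmul_apply, sub_mul, one_mul, map_sub, β₁_apply, π₁_δ_mul u Gam.y (σ₂ (fun _ => 1))
      (by intro h; simp [q₁, σ₂, sg_zero, add_comm])]
  β₁_inj := β₁_inj _ (fun _ => one_ne_zero)
  π₂_β₁ := π₂_β₁ _
  π₂_ker := π₂_ker _ (fun _ => Or.inl rfl)
  π₂_surj := π₂_surj
  π₂_T u := by
    rw [lmul_apply, δ_mul, π₁_δ_mul u (Gam.t * Gam.y⁻¹) (fun p => (1 - p.1, p.2 + 1))
      (by intro h; simp [q₁, sg_one, sg_zero, add_comm]; ring),
      π₂_apply, ← Finsupp.mapDomain_comp, T₂_apply, π₂_apply, ← Finsupp.mapDomain_comp]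
    rfl
  T₂_inj := T₂_inj
  π₃_T₂ := π₃_T₂
  π₃_ker := π₃_ker

end Pool.Agent.Helper74.PD3
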