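import Mathlib
import Pool.Agent.Helper74.PD3.Data

/-!
The explicit free resolution and its dual, as statements about matrices over the group ring.
-/

namespace Pool.Agent.Helper74.PD3

open MonoidAlgebra

theorem ring_aux1 (v : ZG) : v * (δ Gam.x - 1) * δ Gam.t =
    -(v * (δ Gam.t * δ Gam.x⁻¹)) * (δ Gam.x - 1) := by
  have h : δ Gam.x * δ Gam.t = δ Gam.t * δ Gam.x⁻¹ := δx_δt
  have h2 : δ Gam.x⁻¹ * δ Gam.x = 1 := δx_inv'
  calc v * (δ Gam.x - 1) * δ Gam.t = v * (δ Gam.x * δ Gam.t) - v * δ Gam.t := by noncomm_ring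
    _ = v * (δ Gam.t * δ Gam.x⁻¹) - v * (δ Gam.t * (δ Gam.x⁻¹ * δ Gam.x)) := by
        rw [h, h2, mul_one]
    _ = _ := by noncomm_ring

theorem ring_aux2 (v : ZG) : v * (δ Gam.y - 1) * δ Gam.t =
    v * δ Gam.t * (δ Gam.x - 1) - v * (δ Gam.t * δ Gam.x * δ Gam.y⁻¹) * (δ Gam.y - 1) := by
  have h : δ Gam.y * δ Gam.t = δ Gam.t * (δ Gam.x * δ Gam.y⁻¹) := δy_δt
  have h2 : δ Gam.y⁻¹ * δ Gam.y = 1 := δy_inv'
  calc v * (δ Gam.y - 1) * δ Gam.t = v * (δ Gam.y * δ Gam.t) - v * δ Gam.t := by noncomm_ring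
    _ = v * (δ Gam.t * (δ Gam.x * δ Gam.y⁻¹)) + v * δ Gam.t * δ Gam.x - v * δ Gam.t
        - v * δ Gam.t * δ Gam.x * (δ Gam.y⁻¹ * δ Gam.y) := by
        rw [h, h2]; noncomm_ring
    _ = _ := by noncomm_ring

/-- Koszul data for right multiplication. -/
noncomputable def KR : KData ZG where
  α := rmul (δ Gam.x - 1)
  β := rmul (δ Gam.y - 1)
  T := rmul (δ Gam.t)
  τx := -((rmul (δ (Gam.t * Gam.x⁻¹))).comp (AddMonoidHom.fst ZG ZG)) +
    (rmul (δ Gam.t)).comp (AddMonoidHom.snd ZG ZG)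
  τy := -((rmul (δ (Gam.t * Gam.x * Gam.y⁻¹))).comp (AddMonoidHom.snd ZG ZG))
  W := rmul (δ (Gam.t * Gam.y⁻¹))
  comm w := by
    simp only [rmul_apply]
    have := δx_δy
    calc w * (δ Gam.y - 1) * (δ Gam.x - 1)
        = w * (δ Gam.y * δ Gam.x) - w * δ Gam.y - w * δ Gam.x + w := by noncomm_ring
      _ = w * (δ Gam.x * δ Gam.y) - w * δ Gam.y - w * δ Gam.x + w := by rw [this]
      _ = _ := by noncomm_ring
  chain1 v := by
    obtain ⟨v1, v2⟩ := v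
    simp only [rmul_apply, AddMonoidHom.add_apply, AddMonoidHom.neg_apply,
      AddMonoidHom.comp_apply, AddMonoidHom.coe_fst, AddMonoidHom.coe_snd]
    rw [add_mul, ring_aux1, ring_aux2]
    simp only [← δ_mul]
    noncomm_ring
  chain2x w := by
    simp only [rmul_apply, AddMonoidHom.add_apply, AddMonoidHom.neg_apply,
      AddMonoidHom.comp_apply, AddMonoidHom.coe_fst, AddMonoidHom.coe_snd]
    have h1 : δ Gam.y * δ (Gam.t * Gam.x⁻¹) = δ (Gam.t * Gam.y⁻¹) := by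
      rw [δ_mul]; exact congrArg δ (by apply Gam.ext <;> simp [sg_zero, sg_one])
    have h2 : δ Gam.x * δ Gam.t = δ (Gam.t * Gam.x⁻¹) := by
      rw [δ_mul]; exact congrArg δ Gam.x_mul_t
    have h3 : δ (Gam.t * Gam.y⁻¹) * δ Gam.y = δ Gam.t := by
      rw [δ_mul]; exact congrArg δ (by group)
    calc -(-(w * (δ Gam.y - 1)) * δ (Gam.t * Gam.x⁻¹)) + w * (δ Gam.x - 1) * δ Gam.t
        = w * (δ Gam.y * δ (Gam.t * Gam.x⁻¹)) - w * δ (Gam.t * Gam.x⁻¹)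
          + w * (δ Gam.x * δ Gam.t) - w * δ Gam.t := by noncomm_ring
      _ = w * δ (Gam.t * Gam.y⁻¹) - w * δ (Gam.t * Gam.x⁻¹)
          + w * δ (Gam.t * Gam.x⁻¹) - w * (δ (Gam.t * Gam.y⁻¹) * δ Gam.y) := by rw [h1, h2, h3]
      _ = _ := by noncomm_ring
  chain2y w := by
    simp only [rmul_apply, AddMonoidHom.neg_apply,
      AddMonoidHom.comp_apply, AddMonoidHom.coe_snd]
    have h1 : δ Gam.x * δ (Gam.t * Gam.x * Gam.y⁻¹) = δ (Gam.t * Gam.y⁻¹) := by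
      rw [δ_mul]; exact congrArg δ (by apply Gam.ext <;> simp [sg_zero, sg_one])
    have h2 : δ (Gam.t * Gam.y⁻¹) * δ Gam.x = δ (Gam.t * Gam.x * Gam.y⁻¹) := by
      rw [δ_mul]; exact congrArg δ (by apply Gam.ext <;> simp [sg_zero, sg_one])
    calc -(w * (δ Gam.x - 1) * δ (Gam.t * Gam.x * Gam.y⁻¹))
        = w * δ (Gam.t * Gam.x * Gam.y⁻¹) - w * (δ Gam.x * δ (Gam.t * Gam.x * Gam.y⁻¹)) := by
          noncomm_ring
      _ = w * (δ (Gam.t * Gam.y⁻¹) * δ Gam.x) - w * δ (Gam.t * Gam.y⁻¹) := by rw [h1, h2]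
      _ = _ := by noncomm_ring
  h1 := towerR.α_inj
  h2 := towerR.t2
  h3 := towerR.t3

/-- Koszul data for left multiplication. -/
noncomputable def KL : KData ZG where
  α := lmul (1 - δ Gam.x)
  β := lmul (δ Gam.y - 1)
  T := lmul (δ Gam.t * δ Gam.y⁻¹)
  τx := (lmul (δ Gam.t)).comp (AddMonoidHom.snd ZG ZG) -
    (lmul (δ (Gam.t * Gam.x * Gam.y⁻¹))).comp (AddMonoidHom.fst ZG ZG)
  τy := -((lmul (δ (Gam.t * Gam.x⁻¹))).comp (AddMonoidHom.snd ZG ZG))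
  W := lmul (δ Gam.t)
  comm w := by
    simp only [lmul_apply]
    have := δx_δy
    calc (1 - δ Gam.x) * ((δ Gam.y - 1) * w)
        = δ Gam.y * w - w - δ Gam.x * δ Gam.y * w + δ Gam.x * w := by noncomm_ring
      _ = δ Gam.y * w - w - δ Gam.y * δ Gam.x * w + δ Gam.x * w := by rw [this]
      _ = _ := by noncomm_ring
  chain1 v := by
    obtain ⟨v1, v2⟩ := v
    simp only [lmul_apply, AddMonoidHom.sub_apply, AddMonoidHom.neg_apply,
      AddMonoidHom.comp_apply, AddMonoidHom.coe_fst, AddMonoidHom.coe_snd]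
    have h1 : δ Gam.t * δ Gam.y⁻¹ * δ Gam.x = δ (Gam.t * Gam.x * Gam.y⁻¹) := by
      rw [δ_mul, δ_mul]; exact congrArg δ (by apply Gam.ext <;> simp [sg_zero, sg_one])
    have h2 : δ Gam.t * δ Gam.y⁻¹ * δ Gam.y = δ Gam.t := by
      rw [δ_mul, δ_mul]; exact congrArg δ (by group)
    have h3 : δ Gam.x * δ (Gam.t * Gam.x * Gam.y⁻¹) = δ Gam.t * δ Gam.y⁻¹ := by
      rw [δ_mul, δ_mul]; exact congrArg δ (by apply Gam.ext <;> simp [sg_zero, sg_one])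
    have h4 : δ Gam.x * δ Gam.t = δ (Gam.t * Gam.x⁻¹) := by
      rw [δ_mul]; exact congrArg δ Gam.x_mul_t
    have h5 : δ Gam.y * δ (Gam.t * Gam.x⁻¹) = δ Gam.t * δ Gam.y⁻¹ := by
      rw [δ_mul, δ_mul]; exact congrArg δ (by apply Gam.ext <;> simp [sg_zero, sg_one])
    calc δ Gam.t * δ Gam.y⁻¹ * ((1 - δ Gam.x) * v1 + (δ Gam.y - 1) * v2)
        = δ Gam.t * δ Gam.y⁻¹ * v1 - (δ Gam.t * δ Gam.y⁻¹ * δ Gam.x) * v1
          + (δ Gam.t * δ Gam.y⁻¹ * δ Gam.y) * v2 - δ Gam.t * δ Gam.y⁻¹ * v2 := by noncomm_ring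
      _ = (δ Gam.x * δ (Gam.t * Gam.x * Gam.y⁻¹)) * v1 - δ (Gam.t * Gam.x * Gam.y⁻¹) * v1
          + δ Gam.t * v2 - (δ Gam.y * δ (Gam.t * Gam.x⁻¹)) * v2
          + (δ (Gam.t * Gam.x⁻¹) - δ Gam.x * δ Gam.t) * v2 := by
          rw [h1, h2, h3, h5, h4, sub_self, zero_mul, add_zero]
      _ = _ := by noncomm_ring
  chain2x w := by
    simp only [lmul_apply, AddMonoidHom.sub_apply,
      AddMonoidHom.comp_apply, AddMonoidHom.coe_fst, AddMonoidHom.coe_snd]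
    have h1 : δ Gam.t * δ Gam.x = δ (Gam.t * Gam.x * Gam.y⁻¹) * δ Gam.y := by
      rw [δ_mul, δ_mul]; exact congrArg δ (by group)
    have h2 : δ Gam.y * δ Gam.t = δ (Gam.t * Gam.x * Gam.y⁻¹) := by
      rw [δ_mul]; exact congrArg δ (by rw [Gam.y_mul_t]; group)
    calc δ Gam.t * ((1 - δ Gam.x) * w) - δ (Gam.t * Gam.x * Gam.y⁻¹) * -((δ Gam.y - 1) * w)
        = δ Gam.t * w - δ Gam.t * δ Gam.x * w + δ (Gam.t * Gam.x * Gam.y⁻¹) * δ Gam.y * w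
          - δ (Gam.t * Gam.x * Gam.y⁻¹) * w := by noncomm_ring
      _ = δ Gam.t * w - δ Gam.y * δ Gam.t * w := by rw [h1, h2]; noncomm_ring
      _ = _ := by noncomm_ring
  chain2y w := by
    simp only [lmul_apply, AddMonoidHom.neg_apply,
      AddMonoidHom.comp_apply, AddMonoidHom.coe_snd]
    have h1 : δ (Gam.t * Gam.x⁻¹) * δ Gam.x = δ Gam.t := by
      rw [δ_mul]; exact congrArg δ (by group)
    have h2 : δ Gam.x * δ Gam.t = δ (Gam.t * Gam.x⁻¹) := by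
      rw [δ_mul]; exact congrArg δ Gam.x_mul_t
    calc -(δ (Gam.t * Gam.x⁻¹) * ((1 - δ Gam.x) * w))
        = δ (Gam.t * Gam.x⁻¹) * δ Gam.x * w - δ (Gam.t * Gam.x⁻¹) * w := by noncomm_ring
      _ = δ Gam.t * w - δ Gam.x * δ Gam.t * w := by rw [h1, h2]
      _ = _ := by noncomm_ring
  h1 := towerL.α_inj
  h2 := towerL.t2
  h3 := towerL.t3

end Pool.Agent.Helper74.PD3
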