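import Mathlib
import Pool.Agent.Helper74.PD3.Cplx

/-!
The explicit finite free resolution of the trivial module over the group ring of `Gam`.
-/

namespace Pool.Agent.Helper74.PD3

open MonoidAlgebra

/-- Ranks of the free modules in the resolution: `1, 3, 3, 1, 0, 0, …`. -/
def mm : ℕ → ℕ
  | 0 => 1
  | 1 => 3
  | 2 => 3
  | 3 => 1
  | _ => 0

/-- First differential. -/
noncomputable def D0 : Matrix (Fin 3) (Fin 1) ZG := !![δ Gam.x - 1; δ Gam.y - 1; δ Gam.t - 1]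

/-- Second differential. -/
noncomputable def D1 : Matrix (Fin 3) (Fin 3) ZG :=
  !![-(δ Gam.y - 1), δ Gam.x - 1, 0;
     -(δ (Gam.t * Gam.x⁻¹)) - 1, 0, -(δ Gam.x - 1);
     δ Gam.t, -(δ (Gam.t * Gam.x * Gam.y⁻¹)) - 1, -(δ Gam.y - 1)]

/-- Third differential. -/
noncomputable def D2 : Matrix (Fin 1) (Fin 3) ZG :=
  !![δ (Gam.t * Gam.y⁻¹) - 1, δ Gam.y - 1, -(δ Gam.x - 1)]

/-- The matrices of the differentials. -/
noncomputable def DD : (i : ℕ) → Matrix (Fin (mm (i + 1))) (Fin (mm i)) ZG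
  | 0 => D0
  | 1 => D1
  | 2 => D2
  | _ + 3 => 0

/-- The augmentation. -/
noncomputable def aug : ZG →+ ℤ := π₃.comp (π₂.comp π₁)

theorem aug_single (g : Gam) (r : ℤ) : aug (MonoidAlgebra.single g r) = r := by
  simp only [aug, AddMonoidHom.comp_apply, π₁_apply, MonoidAlgebra.coeff_single,
    Finsupp.mapDomain_single, π₂_apply, π₃_single]

theorem aug_δ_mul (g : Gam) (u : ZG) : aug (δ g * u) = aug u := by
  induction u using MonoidAlgebra.induction_linear with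
  | zero => simp
  | add a b ha hb => rw [mul_add, map_add, map_add, ha, hb]
  | single h r => rw [δ, MonoidAlgebra.single_mul_single, aug_single, aug_single, one_mul]

theorem vec_DD0 (u : Fin 3 → ZG) : Matrix.vecMul u D0 = fun _ : Fin 1 => KR.d1 (u 0, u 1, u 2) := by
  funext j
  fin_cases j
  simp [D0, Matrix.vecMul, dotProduct, Fin.sum_univ_succ, KData.d1, KR, mul_sub]
  noncomm_ring

theorem vec_DD1 (u : Fin 3 → ZG) : Matrix.vecMul u D1 =
    (![(KR.d2 (u 0, u 1, u 2)).1, (KR.d2 (u 0, u 1, u 2)).2.1, (KR.d2 (u 0, u 1, u 2)).2.2] :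
      Fin 3 → ZG) := by
  funext j
  fin_cases j <;>
  simp [D1, Matrix.vecMul, dotProduct, Fin.sum_univ_succ, KData.d2, KR] <;>
  noncomm_ring

theorem vec_DD2 (u : Fin 1 → ZG) : Matrix.vecMul u D2 =
    (![(KR.d3 (u 0)).1, (KR.d3 (u 0)).2.1, (KR.d3 (u 0)).2.2] : Fin 3 → ZG) := by
  funext j
  fin_cases j <;>
  simp [D2, Matrix.vecMul, dotProduct, KData.d3, KR] <;>
  noncomm_ring

theorem exactC0 (x : Fin 1 → ZG) : (∃ u : Fin 3 → ZG, Matrix.vecMul u D0 = x) ↔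
    aug (x 0) = 0 := by
  constructor
  · rintro ⟨u, rfl⟩
    rw [vec_DD0]
    exact towerR.t4' _ _ _
  · intro h
    obtain ⟨v, w, z, hz⟩ := towerR.t4 (x 0) h
    refine ⟨![v, w, z], ?_⟩
    rw [vec_DD0]
    funext j
    fin_cases j
    exact hz.symm

theorem exactC1 (x : Fin 3 → ZG) : (∃ u : Fin 3 → ZG, Matrix.vecMul u D1 = x) ↔
    Matrix.vecMul x D0 = 0 := by
  constructor
  · rintro ⟨u, rfl⟩
    rw [vec_DD0, vec_DD1]
    funext j
    exact KR.d1_d2 _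
  · intro h
    rw [vec_DD0] at h
    obtain ⟨w, hw⟩ := KR.exact1 _ (congrFun h (0 : Fin 1))
    refine ⟨![w.1, w.2.1, w.2.2], ?_⟩
    rw [vec_DD1]
    have : ((![w.1, w.2.1, w.2.2] : Fin 3 → ZG) 0, (![w.1, w.2.1, w.2.2] : Fin 3 → ZG) 1,
      (![w.1, w.2.1, w.2.2] : Fin 3 → ZG) 2) = w := rfl
    rw [this, hw]
    funext j
    fin_cases j <;> rfl

theorem exactC2 (x : Fin 3 → ZG) : (∃ u : Fin 1 → ZG, Matrix.vecMul u D2 = x) ↔
    Matrix.vecMul x D1 = 0 := by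
  constructor
  · rintro ⟨u, rfl⟩
    rw [vec_DD2, vec_DD1]
    have h := KR.d2_d3 (u 0)
    have e : ((![(KR.d3 (u 0)).1, (KR.d3 (u 0)).2.1, (KR.d3 (u 0)).2.2] : Fin 3 → ZG) 0,
      (![(KR.d3 (u 0)).1, (KR.d3 (u 0)).2.1, (KR.d3 (u 0)).2.2] : Fin 3 → ZG) 1,
      (![(KR.d3 (u 0)).1, (KR.d3 (u 0)).2.1, (KR.d3 (u 0)).2.2] : Fin 3 → ZG) 2)
        = KR.d3 (u 0) := rfl
    rw [e, h]
    funext j
    fin_cases j <;> rfl
  · intro h
    rw [vec_DD1] at h
    have h' : KR.d2 (x 0, x 1, x 2) = 0 := by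
      refine Prod.ext (congrFun h (0 : Fin 3)) (Prod.ext (congrFun h (1 : Fin 3))
        (congrFun h (2 : Fin 3)))
    obtain ⟨w, hw⟩ := KR.exact2 _ h'
    refine ⟨![w], ?_⟩
    rw [vec_DD2]
    have : (![w] : Fin 1 → ZG) 0 = w := rfl
    rw [this, hw]
    funext j
    fin_cases j <;> rfl

theorem injC3 (x : Fin 1 → ZG) (h : Matrix.vecMul x D2 = 0) : x = 0 := by
  rw [vec_DD2] at h
  have h' : KR.d3 (x 0) = 0 := by
    refine Prod.ext (congrFun h (0 : Fin 3)) (Prod.ext (congrFun h (1 : Fin 3))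
      (congrFun h (2 : Fin 3)))
  funext j
  fin_cases j
  exact KR.d3_inj _ h'

/-- `Gam` is of type `FP₃` (in fact `FP`), in the form used by the frozen statement. -/
theorem FP3 : ∃ m : ℕ → ℕ,
        ∃ d : ∀ i : ℕ, (Fin (m (i + 1)) → MonoidAlgebra ℤ Gam) →ₗ[MonoidAlgebra ℤ Gam]
            (Fin (m i) → MonoidAlgebra ℤ Gam),
        ∃ ε : (Fin (m 0) → MonoidAlgebra ℤ Gam) →+ ℤ,
          (∀ (g : Gam) (x : Fin (m 0) → MonoidAlgebra ℤ Gam),
              ε (MonoidAlgebra.of ℤ Gam g • x) = ε x) ∧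
          Function.Surjective ε ∧
          (∀ x, x ∈ LinearMap.range (d 0) ↔ ε x = 0) ∧
          (∀ i : ℕ, i + 1 < 3 → LinearMap.range (d (i + 1)) = LinearMap.ker (d i)) := by
  refine ⟨mm, fun i => (DD i).vecMulLinear, aug.comp (Pi.evalAddMonoidHom _ (0 : Fin 1)),
    ?_, ?_, ?_, ?_⟩
  · intro g x
    exact aug_δ_mul g (x (0 : Fin 1))
  · intro n
    exact ⟨fun _ => MonoidAlgebra.single 1 n, aug_single 1 n⟩
  · intro x
    exact exactC0 x
  · intro i hi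
    have : i = 0 ∨ i = 1 := by omega
    rcases this with rfl | rfl
    · ext x
      rw [LinearMap.mem_range, LinearMap.mem_ker]
      exact exactC1 x
    · ext x
      rw [LinearMap.mem_range, LinearMap.mem_ker]
      exact exactC2 x

end Pool.Agent.Helper74.PD3
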