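import Mathlib
import Pool.Agent.Helper74.PD3.FP
import Pool.Agent.Helper74.PD3.Gen

/-!
The projective resolution in `Rep ℤ Gam`.
-/

namespace Pool.Agent.Helper74.PD3

open MonoidAlgebra CategoryTheory

/-- The terms of the resolution. -/
noncomputable abbrev XX (n : ℕ) : Rep ℤ Gam := Rep.free ℤ Gam (Fin (mm n))

/-- The differentials of the resolution. -/
noncomputable def dd (n : ℕ) : XX (n + 1) ⟶ XX n :=
  Rep.freeLift ℤ Gam (A := XX n) (fun i => Finsupp.equivFunOnFinite.symm (DD n i))

theorem free_apply {α : Type*} (g : Gam) (w : α →₀ ZG) (j : α) :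
    (Representation.free ℤ Gam α g w) j = δ g * w j := by
  classical
  induction w using Finsupp.induction_linear with
  | zero => simp
  | add a b ha hb => rw [map_add, Finsupp.add_apply, ha, hb, Finsupp.add_apply, mul_add]
  | single i v =>
    rw [Representation.finsupp_single, Finsupp.single_apply, Finsupp.single_apply]
    split_ifs with h
    · induction v using MonoidAlgebra.induction_linear with
      | zero => simp
      | add a b ha hb => rw [map_add, ha, hb, mul_add]
      | single h r => simp [δ]
    · rw [mul_zero]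

theorem single_eq_intCast_mul (g : Gam) (r : ℤ) : (MonoidAlgebra.single g r : ZG) = (r : ZG) * δ g := by
  rw [← zsmul_eq_mul, δ]
  simp

theorem dd_apply (n : ℕ) (u : Fin (mm (n + 1)) →₀ ZG) :
    (dd n).hom u = Finsupp.equivFunOnFinite.symm (Matrix.vecMul (⇑u) (DD n)) := by
  induction u using Finsupp.induction_linear with
  | zero => 
    rw [map_zero]
    ext1 j
    simp
  | add a b ha hb =>
    rw [map_add, ha, hb]
    ext1 j
    simp [Matrix.add_vecMul]
  | single i v =>
    induction v using MonoidAlgebra.induction_linear with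
    | zero =>
      rw [Finsupp.single_zero, map_zero]
      ext1 j
      simp
    | add a b ha hb =>
      rw [Finsupp.single_add, map_add, ha, hb]
      ext1 j
      simp [Matrix.add_vecMul]
    | single g r =>
      ext1 j
      simp only [dd, Rep.hom_ofHom, Representation.freeLift_single_single, Finsupp.smul_apply,
        free_apply, Finsupp.equivFunOnFinite_symm_apply_apply, Matrix.vecMul, dotProduct]
      rw [Finset.sum_eq_single i]
      · rw [Finsupp.single_eq_same, single_eq_intCast_mul, mul_assoc, zsmul_eq_mul]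
      · intro b _ hb
        rw [Finsupp.single_eq_of_ne hb, zero_mul]
      · intro h
        exact absurd (Finset.mem_univ _) h

theorem vec_sq (n : ℕ) (u : Fin (mm (n + 2)) → ZG) :
    Matrix.vecMul (Matrix.vecMul u (DD (n + 1))) (DD n) = 0 := by
  match n, u with
  | 0, u => exact (exactC1 _).1 ⟨u, rfl⟩
  | 1, u => exact (exactC2 _).1 ⟨u, rfl⟩
  | 2, u =>
    have : DD 3 = 0 := rfl
    rw [this, Matrix.vecMul_zero, Matrix.zero_vecMul]
  | n + 3, u =>
    have : DD (n + 3) = 0 := rfl
    rw [this, Matrix.vecMul_zero]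

theorem dd_sq (n : ℕ) : dd (n + 1) ≫ dd n = 0 := by
  apply Rep.hom_ext
  refine DFunLike.ext _ _ fun u => ?_
  change (dd n).hom ((dd (n + 1)).hom u) = 0
  rw [dd_apply, dd_apply]
  apply Finsupp.equivFunOnFinite.injective
  exact vec_sq n u

/-- The chain complex. -/
noncomputable def CC : ChainComplex (Rep ℤ Gam) ℕ := ChainComplex.of XX dd dd_sq

theorem CC_d (n : ℕ) : CC.d (n + 1) n = dd n := ChainComplex.of_d ..

/-- The augmentation of the complex. -/
noncomputable def ee : XX 0 ⟶ Rep.trivial ℤ Gam ℤ :=
  Rep.freeLift ℤ Gam (A := Rep.trivial ℤ Gam ℤ) (fun _ => (1 : ℤ))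

/-- The unique index in degree zero. -/
def z0 : Fin (mm 0) := (0 : Fin 1)

theorem ee_apply (u : Fin (mm 0) →₀ ZG) : ee.hom u = aug (u z0) := by
  induction u using Finsupp.induction_linear with
  | zero => rw [map_zero]; simp
  | add a b ha hb => rw [map_add, ha, hb, Finsupp.add_apply, map_add]
  | single i v =>
    have hi : i = z0 := Subsingleton.elim (α := Fin 1) _ _
    rw [hi]
    rw [Finsupp.single_eq_same]
    induction v using MonoidAlgebra.induction_linear with
    | zero => rw [Finsupp.single_zero, map_zero, map_zero]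
    | add a b ha hb => rw [Finsupp.single_add, map_add, ha, hb, map_add]
    | single g r =>
      rw [aug_single]
      simp only [ee, Rep.hom_ofHom, Representation.freeLift_single_single]
      simp

theorem dd_ee : dd 0 ≫ ee = 0 := by
  apply Rep.hom_ext
  refine DFunLike.ext _ _ fun u => ?_
  change ee.hom ((dd 0).hom u) = 0
  rw [dd_apply, ee_apply]
  exact (exactC0 _).1 ⟨u, rfl⟩

theorem exact_succ (n : ℕ) (u : Fin (mm (n + 1)) → ZG) (h : Matrix.vecMul u (DD n) = 0) :
    ∃ v : Fin (mm (n + 2)) → ZG, Matrix.vecMul v (DD (n + 1)) = u := by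
  match n, u, h with
  | 0, u, h => exact (exactC1 u).2 h
  | 1, u, h => exact (exactC2 u).2 h
  | 2, u, h =>
    refine ⟨0, ?_⟩
    rw [Matrix.zero_vecMul]
    exact (injC3 u h).symm
  | n + 3, u, h => exact ⟨0, funext fun j => j.elim0⟩

theorem key0 (u : Fin (mm 0) →₀ ZG) (hu : ee.hom u = 0) :
    ∃ v : Fin (mm 1) →₀ ZG, (CC.d 1 0).hom v = u := by
  rw [ee_apply] at hu
  obtain ⟨v, hv⟩ := (exactC0 u).2 hu
  refine ⟨Finsupp.equivFunOnFinite.symm v, ?_⟩
  have h : CC.d 1 0 = dd 0 := CC_d 0
  rw [h]
  refine (dd_apply 0 _).trans ?_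
  apply Finsupp.equivFunOnFinite.injective
  exact hv

theorem key_succ (m : ℕ) (u : Fin (mm (m + 1)) →₀ ZG) (hu : (CC.d (m + 1) m).hom u = 0) :
    ∃ v : Fin (mm (m + 2)) →₀ ZG, (CC.d (m + 2) (m + 1)).hom v = u := by
  rw [CC_d] at hu
  have hu' := congrArg Finsupp.equivFunOnFinite ((dd_apply m u).symm.trans hu)
  obtain ⟨v, hv⟩ := exact_succ m u hu'
  refine ⟨Finsupp.equivFunOnFinite.symm v, ?_⟩
  rw [CC_d (m + 1)]
  refine (dd_apply (m + 1) _).trans ?_
  apply Finsupp.equivFunOnFinite.injective
  exact hv

theorem key_surj (r : ℤ) : ∃ u : Fin (mm 0) →₀ ZG, ee.hom u = r := by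
  refine ⟨Finsupp.single z0 (.single 1 r), ?_⟩
  rw [ee_apply, Finsupp.single_eq_same, aug_single]

theorem CC_ee : CC.d 1 0 ≫ ee = 0 := by
  have h : CC.d 1 0 = dd 0 := CC_d 0
  rw [h]; exact dd_ee

/-- The projective resolution of the trivial module. -/
noncomputable def PP : ProjectiveResolution (Rep.trivial ℤ Gam ℤ) :=
  mkRes CC ee CC_ee (fun n => inferInstanceAs <| Projective (XX n)) key0 key_succ key_surj

/-- coordinates of a morphism out of a free representation -/
noncomputable def val {n : ℕ} (f : XX n ⟶ Rep.leftRegular ℤ Gam) : Fin (mm n) → ZG :=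
  fun i => f.hom (Finsupp.single i (MonoidAlgebra.single 1 1))

theorem val_lift {n : ℕ} (w : Fin (mm n) → ZG) :
    val (Rep.freeLift ℤ Gam (A := Rep.leftRegular ℤ Gam) w) = w := by
  funext i
  simp only [val, Rep.hom_ofHom, Representation.freeLift_single_single]
  simp

theorem val_inj {n : ℕ} {f g : XX n ⟶ Rep.leftRegular ℤ Gam} (h : val f = val g) : f = g :=
  Rep.free_ext ℤ Gam _ _ _ (fun i => congrFun h i)

theorem hom_apply {n : ℕ} (f : XX n ⟶ Rep.leftRegular ℤ Gam) (u : Fin (mm n) →₀ ZG) :
    (f.hom u : ZG) = ∑ i, u i * val f i := by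
  induction u using Finsupp.induction_linear with
  | zero => rw [map_zero]; simp
  | add a b ha hb =>
    rw [map_add, ha, hb, ← Finset.sum_add_distrib]
    refine Finset.sum_congr rfl fun i _ => ?_
    rw [Finsupp.add_apply, add_mul]
  | single i v =>
    rw [Finset.sum_eq_single i]
    · rw [Finsupp.single_eq_same]
      induction v using MonoidAlgebra.induction_linear with
      | zero => rw [Finsupp.single_zero, map_zero, zero_mul]
      | add a b ha hb => rw [Finsupp.single_add, map_add, ha, hb, add_mul]
      | single g r =>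
        have h1 : (Finsupp.single i (MonoidAlgebra.single g r) : Fin (mm n) →₀ ZG) =
            r • (Representation.free ℤ Gam (Fin (mm n)) g
              (Finsupp.single i (MonoidAlgebra.single 1 1))) := by
          rw [Representation.free_single_single, mul_one, Finsupp.smul_single,
            MonoidAlgebra.smul_single]
          simp
        rw [h1, map_zsmul]
        have h2 := Rep.hom_comm_apply f g (Finsupp.single i (MonoidAlgebra.single 1 1))
        refine (congrArg (r • ·) h2).trans ?_
        have h3 : ∀ z : ZG, (Rep.leftRegular ℤ Gam).ρ g z = δ g * z := by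
          intro z
          induction z using MonoidAlgebra.induction_linear with
          | zero => rw [mul_zero]; exact map_zero _
          | add a b ha hb => rw [mul_add, ← ha, ← hb]; exact map_add _ _ _
          | single h s => simp [δ]
        simp only
        rw [h3, single_eq_intCast_mul g r, mul_assoc, ← zsmul_eq_mul]
        rfl
    · intro b _ hb
      rw [Finsupp.single_eq_of_ne hb, zero_mul]
    · intro h
      exact absurd (Finset.mem_univ _) h

theorem val_dd {n : ℕ} (f : XX n ⟶ Rep.leftRegular ℤ Gam) :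
    val (dd n ≫ f) = Matrix.mulVec (DD n) (val f) := by
  funext i
  have h1 : val (dd n ≫ f) i = f.hom ((dd n).hom (Finsupp.single i (MonoidAlgebra.single 1 1))) := rfl
  rw [h1, hom_apply, dd_apply]
  simp only [Matrix.mulVec, dotProduct, Finsupp.equivFunOnFinite_symm_apply_apply]
  refine Finset.sum_congr rfl fun j _ => ?_
  congr 1
  simp only [Matrix.vecMul, dotProduct]
  rw [Finset.sum_eq_single i]
  · rw [Finsupp.single_eq_same]
    exact one_mul _
  · intro b _ hb
    rw [Finsupp.single_eq_of_ne hb, zero_mul]
  · intro h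
    exact absurd (Finset.mem_univ _) h

end Pool.Agent.Helper74.PD3
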