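import Mathlib
import Pool.Agent.Helper74.PD3.Res

/-!
The dual complex and the cohomology of `Gam`.
-/

namespace Pool.Agent.Helper74.PD3

open MonoidAlgebra CategoryTheory

theorem mul_D0 (w : Fin 1 → ZG) : Matrix.mulVec D0 w =
    (![(KL.d3 (w 0)).2.2, (KL.d3 (w 0)).2.1, (KL.d3 (w 0)).1] : Fin 3 → ZG) := by
  funext j
  fin_cases j <;>
  simp [D0, Matrix.mulVec, dotProduct, KData.d3, KL] <;>
  noncomm_ring

theorem mul_D1 (w : Fin 3 → ZG) : Matrix.mulVec D1 w =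
    (![(KL.d2 (w 2, w 1, w 0)).2.2, (KL.d2 (w 2, w 1, w 0)).2.1, (KL.d2 (w 2, w 1, w 0)).1] :
      Fin 3 → ZG) := by
  funext j
  fin_cases j <;>
  simp [D1, Matrix.mulVec, dotProduct, Fin.sum_univ_succ, KData.d2, KL] <;>
  noncomm_ring

theorem mul_D2 (w : Fin 3 → ZG) : Matrix.mulVec D2 w = fun _ : Fin 1 => KL.d1 (w 2, w 1, w 0) := by
  funext j
  fin_cases j
  simp [D2, Matrix.mulVec, dotProduct, Fin.sum_univ_succ, KData.d1, KL, ← δ_mul]
  noncomm_ring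

theorem dual0 (w : Fin 1 → ZG) (h : Matrix.mulVec D0 w = 0) : w = 0 := by
  rw [mul_D0] at h
  have h' : KL.d3 (w 0) = 0 := by
    refine Prod.ext (congrFun h (2 : Fin 3)) (Prod.ext (congrFun h (1 : Fin 3))
      (congrFun h (0 : Fin 3)))
  funext j
  fin_cases j
  exact KL.d3_inj _ h'

theorem dual1 (w : Fin 3 → ZG) (h : Matrix.mulVec D1 w = 0) :
    ∃ v : Fin 1 → ZG, Matrix.mulVec D0 v = w := by
  rw [mul_D1] at h
  have h' : KL.d2 (w 2, w 1, w 0) = 0 := by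
    refine Prod.ext (congrFun h (2 : Fin 3)) (Prod.ext (congrFun h (1 : Fin 3))
      (congrFun h (0 : Fin 3)))
  obtain ⟨v, hv⟩ := KL.exact2 _ h'
  refine ⟨![v], ?_⟩
  rw [mul_D0]
  have : (![v] : Fin 1 → ZG) 0 = v := rfl
  rw [this, hv]
  funext j
  fin_cases j <;> rfl

theorem dual2 (w : Fin 3 → ZG) (h : Matrix.mulVec D2 w = 0) :
    ∃ v : Fin 3 → ZG, Matrix.mulVec D1 v = w := by
  rw [mul_D2] at h
  have h' : KL.d1 (w 2, w 1, w 0) = 0 := congrFun h (0 : Fin 1)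
  obtain ⟨v, hv⟩ := KL.exact1 _ h'
  refine ⟨![v.2.2, v.2.1, v.1], ?_⟩
  rw [mul_D1]
  have : ((![v.2.2, v.2.1, v.1] : Fin 3 → ZG) 2, (![v.2.2, v.2.1, v.1] : Fin 3 → ZG) 1,
    (![v.2.2, v.2.1, v.1] : Fin 3 → ZG) 0) = v := rfl
  rw [this, hv]
  funext j
  fin_cases j <;> rfl

theorem dual3 (w : Fin 1 → ZG) : aug (w 0) = 0 ↔ ∃ v : Fin 3 → ZG, Matrix.mulVec D2 v = w := by
  constructor
  · intro h
    obtain ⟨v1, v2, z, hz⟩ := towerL.t4 (w 0) h
    refine ⟨![z, v2, v1], ?_⟩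
    rw [mul_D2]
    funext j
    fin_cases j
    exact hz.symm
  · rintro ⟨v, rfl⟩
    rw [mul_D2]
    exact towerL.t4' _ _ _

theorem PP_d (n : ℕ) : PP.complex.d (n + 1) n = dd n := CC_d n

/-- `H^4(Gam, M) = 0` for all `M`. -/
theorem H4 (M : Rep ℤ Gam) : Subsingleton (groupCohomology M 4) := by
  refine subsingleton_succ PP M 3 fun f _ => ⟨0, ?_⟩
  have : f = 0 := Rep.free_ext ℤ Gam _ _ _ (fun i => Fin.elim0 i)
  rw [this]
  exact Limits.comp_zero

theorem H0 : Subsingleton (groupCohomology (Rep.leftRegular ℤ Gam) 0) := by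
  refine subsingleton_zero PP _ fun f hf => ?_
  have hf' : dd 0 ≫ f = 0 := hf
  have h1 : Matrix.mulVec D0 (val (n := 0) f) = 0 := by
    refine (val_dd (n := 0) f).symm.trans ?_
    rw [hf']; rfl
  have h2 := dual0 _ h1
  exact val_inj (n := 0) h2

theorem H1 : Subsingleton (groupCohomology (Rep.leftRegular ℤ Gam) 1) := by
  refine subsingleton_succ PP _ 0 fun f hf => ?_
  have hf' : dd 1 ≫ f = 0 := hf
  have h1 : Matrix.mulVec D1 (val (n := 1) f) = 0 := by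
    refine (val_dd (n := 1) f).symm.trans ?_
    rw [hf']; rfl
  obtain ⟨v, hv⟩ := dual1 _ h1
  refine ⟨Rep.freeLift ℤ Gam (A := Rep.leftRegular ℤ Gam) v, ?_⟩
  apply val_inj (n := 1)
  refine (val_dd (n := 0) _).trans ?_
  rw [val_lift (n := 0)]
  exact hv

theorem H2 : Subsingleton (groupCohomology (Rep.leftRegular ℤ Gam) 2) := by
  refine subsingleton_succ PP _ 1 fun f hf => ?_
  have hf' : dd 2 ≫ f = 0 := hf
  have h1 : Matrix.mulVec D2 (val (n := 2) f) = 0 := by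
    refine (val_dd (n := 2) f).symm.trans ?_
    rw [hf']; rfl
  obtain ⟨v, hv⟩ := dual2 _ h1
  refine ⟨Rep.freeLift ℤ Gam (A := Rep.leftRegular ℤ Gam) v, ?_⟩
  apply val_inj (n := 2)
  refine (val_dd (n := 1) _).trans ?_
  rw [val_lift (n := 1)]
  exact hv

/-- The unique index in degree three. -/
def z3 : Fin (mm 3) := (0 : Fin 1)

/-- the map computing the top cohomology -/
noncomputable def topMap : (XX 3 ⟶ Rep.leftRegular ℤ Gam) →+ ℤ where
  toFun f := aug (val (n := 3) f z3)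
  map_zero' := by
    have : val (n := 3) (0 : XX 3 ⟶ Rep.leftRegular ℤ Gam) z3 = 0 := rfl
    rw [this, map_zero]
  map_add' f g := by
    have : val (n := 3) (f + g) z3 = val (n := 3) f z3 + val (n := 3) g z3 := rfl
    rw [this, map_add]

theorem topMap_lift (r : ℤ) : topMap
    (Rep.freeLift ℤ Gam (A := Rep.leftRegular ℤ Gam) (fun _ : Fin (mm 3) => MonoidAlgebra.single 1 r))
      = r := by
  have h : topMap (Rep.freeLift ℤ Gam (A := Rep.leftRegular ℤ Gam)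
    (fun _ : Fin (mm 3) => MonoidAlgebra.single 1 r)) =
      aug (val (n := 3) (Rep.freeLift ℤ Gam (A := Rep.leftRegular ℤ Gam)
        (fun _ : Fin (mm 3) => MonoidAlgebra.single 1 r)) z3) := rfl
  rw [h, val_lift (n := 3)]
  exact aug_single 1 r

theorem topMap_ker (f : XX 3 ⟶ Rep.leftRegular ℤ Gam) :
    topMap f = 0 ↔ ∃ g : XX 2 ⟶ Rep.leftRegular ℤ Gam, dd 2 ≫ g = f := by
  have h0 : topMap f = aug (val (n := 3) f z3) := rfl
  rw [h0]
  constructor
  · intro h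
    obtain ⟨v, hv⟩ := (dual3 (val (n := 3) f)).1 h
    refine ⟨Rep.freeLift ℤ Gam (A := Rep.leftRegular ℤ Gam) (α := Fin (mm 2)) v, ?_⟩
    apply val_inj (n := 3)
    refine (val_dd (n := 2) _).trans ?_
    rw [val_lift (n := 2)]
    exact hv
  · rintro ⟨g, rfl⟩
    exact (dual3 (val (n := 3) (dd 2 ≫ g))).2 ⟨val (n := 2) g, (val_dd (n := 2) g).symm⟩

theorem H3 : Nonempty (groupCohomology (Rep.leftRegular ℤ Gam) 3 ≃+ ℤ) :=
  top_equiv PP _ 2 (fun _ => Rep.free_ext ℤ Gam _ _ _ (fun i => Fin.elim0 i)) topMap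
    (fun r => ⟨_, topMap_lift r⟩) (fun f => topMap_ker f)

end Pool.Agent.Helper74.PD3
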