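import Mathlib
import Pool.Agent.Helper74.PD3.FP

/-!
The Klein bottle subgroup `⟨x, t⟩` of `Gam`: finiteness properties and group theory.
-/

namespace Pool.Agent.Helper74.PD3

open MonoidAlgebra

/-- The Klein bottle subgroup `⟨x, t⟩ = {g | g.b = 0}`. -/
def Kb : Subgroup Gam where
  carrier := {g | g.b = 0}
  mul_mem' := by
    intro g h hg hh
    simp only [Set.mem_ofPred_eq] at *
    simp [hg, hh]
  one_mem' := rfl
  inv_mem' := by
    intro g hg
    simp only [Set.mem_ofPred_eq] at *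
    simp [hg]

theorem mem_Kb (g : Gam) : g ∈ Kb ↔ g.b = 0 := Iff.rfl

/-- `x` in the Klein bottle subgroup -/
def xK : Kb := ⟨Gam.x, rfl⟩
/-- `t` in the Klein bottle subgroup -/
def tK : Kb := ⟨Gam.t, rfl⟩

/-- The integral group ring of the Klein bottle group. -/
abbrev ZK := MonoidAlgebra ℤ Kb

/-- group elements in the group ring -/
noncomputable def κ (g : Kb) : ZK := MonoidAlgebra.single g 1

theorem κ_mul (g h : Kb) : κ g * κ h = κ (g * h) := by simp [κ]
theorem κ_one : κ 1 = 1 := rfl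

theorem coeff_mul_κ (u : ZK) (g : Kb) :
    (u * κ g).coeff = u.coeff.mapDomain (Equiv.mulRight g) := by
  induction u using MonoidAlgebra.induction_linear with
  | zero => simp
  | add a b ha hb => rw [add_mul, coeff_add, ha, hb, coeff_add, Finsupp.mapDomain_add]
  | single h r => simp [κ, Finsupp.mapDomain_single]

theorem coeff_κ_mul (u : ZK) (g : Kb) :
    (κ g * u).coeff = u.coeff.mapDomain (Equiv.mulLeft g) := by
  induction u using MonoidAlgebra.induction_linear with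
  | zero => simp
  | add a b ha hb => rw [mul_add, coeff_add, ha, hb, coeff_add, Finsupp.mapDomain_add]
  | single h r => simp [κ, Finsupp.mapDomain_single]

theorem mulRight_zpowK (g : Kb) (n : ℤ) (h : Kb) : ((Equiv.mulRight g) ^ n) h = h * g ^ n := by
  induction n using Int.induction_on generalizing h with
  | zero => simp
  | succ i ih =>
    rw [zpow_add_one, Equiv.Perm.mul_apply, ih, zpow_add_one, Equiv.coe_mulRight, mul_assoc,
      (Commute.refl g).zpow_right _ |>.eq]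
  | pred i ih =>
    rw [zpow_sub_one, Equiv.Perm.mul_apply, ih, zpow_sub_one]
    have : (Equiv.mulRight g)⁻¹ h = h * g⁻¹ := by
      rw [Equiv.Perm.inv_eq_iff_eq]; simp
    rw [this, mul_assoc, ((Commute.refl g).inv_left.zpow_right _).eq]

/-- the `c` coordinate -/
def qK (g : Kb) : ℤ := g.1.c

/-- quotient map -/
noncomputable def πK : ZK →+ (ℤ →₀ ℤ) :=
  (Finsupp.mapDomain.addMonoidHom qK).comp (coeffAddEquiv : ZK ≃+ (Kb →₀ ℤ)).toAddMonoidHom

theorem πK_apply (u : ZK) : πK u = u.coeff.mapDomain qK := rfl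

theorem πK_surj : Function.Surjective πK := by
  intro v
  refine ⟨MonoidAlgebra.ofCoeff (v.mapDomain (fun p => (⟨⟨0, 0, p⟩, rfl⟩ : Kb))), ?_⟩
  rw [πK_apply, coeff_ofCoeff, ← Finsupp.mapDomain_comp]
  have : (qK ∘ fun p : ℤ => (⟨⟨0, 0, p⟩, rfl⟩ : Kb)) = id := by
    funext p; rfl
  rw [this, Finsupp.mapDomain_id]

theorem πK_mul_κ (u : ZK) (g : Kb) (f : ℤ → ℤ) (hf : ∀ h, qK (h * g) = f (qK h)) :
    πK (u * κ g) = (πK u).mapDomain f := by
  rw [πK_apply, coeff_mul_κ, ← Finsupp.mapDomain_comp, πK_apply, ← Finsupp.mapDomain_comp]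
  congr 1
  funext h
  exact hf h

theorem αK_inj (w : ZK) (hw : w * (κ xK - 1) = 0) : w = 0 := by
  rw [mul_sub, mul_one, sub_eq_zero] at hw
  have h2 := congrArg MonoidAlgebra.coeff hw
  rw [coeff_mul_κ] at h2
  apply MonoidAlgebra.coeff_injective
  apply fixed_eq_zero (Equiv.mulRight xK) _ _ h2
  intro h n hn
  rw [mulRight_zpowK] at hn
  have h3 := congrArg (fun k : Kb => (k : Gam)) hn
  simp only [Subgroup.coe_mul, Subgroup.coe_zpow] at h3
  have h4 : ((xK : Kb) : Gam) = Gam.x := rfl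
  rw [h4, x_zpow] at h3
  have := congrArg Gam.a h3
  simp only [Gam.mul_a, mul_zero, add_zero, add_eq_left, mul_eq_zero] at this
  exact this.resolve_left (sg_ne_zero _)

theorem πK_α (w : ZK) : πK (w * (κ xK - 1)) = 0 := by
  rw [mul_sub, mul_one, map_sub, πK_mul_κ w xK id (by intro h; simp [qK, xK]),
      Finsupp.mapDomain_id, sub_self]

theorem πK_ker (u : ZK) (hu : πK u = 0) : ∃ w, u = w * (κ xK - 1) := by
  obtain ⟨v, hv⟩ := mem_range_of_mapDomain_eq_zero (Equiv.mulRight xK) qK (by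
    intro g g' hg
    refine ⟨(g'.1.a - g.1.a) * sg g.1.c, ?_⟩
    rw [mulRight_zpowK]
    apply Subtype.ext
    rw [Subgroup.coe_mul, Subgroup.coe_zpow]
    have h4 : ((xK : Kb) : Gam) = Gam.x := rfl
    rw [h4, x_zpow]
    simp only [qK] at hg
    apply Gam.ext
    · have := sg_mul_self g.1.c
      simp only [Gam.mul_a]
      linear_combination (g'.1.a - g.1.a) * this
    · have h1 : g.1.b = 0 := g.2
      have h2 : g'.1.b = 0 := g'.2
      simp [h1, h2]
    · simp [hg]) u.coeff hu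
  refine ⟨MonoidAlgebra.ofCoeff v, ?_⟩
  apply MonoidAlgebra.coeff_injective
  rw [mul_sub, mul_one]
  have : (MonoidAlgebra.ofCoeff v * κ xK - MonoidAlgebra.ofCoeff v : ZK).coeff =
    (MonoidAlgebra.ofCoeff v * κ xK).coeff - v := rfl
  rw [this, coeff_mul_κ, ← hv]

theorem πK_T (u : ZK) : πK (u * κ tK) = T₂ (πK u) :=
  πK_mul_κ u tK _ (by intro h; simp [qK, tK, σ₃])

/-- augmentation -/
noncomputable def augK : ZK →+ ℤ := π₃.comp πK

theorem augK_single (g : Kb) (r : ℤ) : augK (MonoidAlgebra.single g r) = r := by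
  simp only [augK, AddMonoidHom.comp_apply, πK_apply, MonoidAlgebra.coeff_single,
    Finsupp.mapDomain_single, π₃_single]

theorem augK_κ_mul (g : Kb) (u : ZK) : augK (κ g * u) = augK u := by
  induction u using MonoidAlgebra.induction_linear with
  | zero => simp
  | add a b ha hb => rw [mul_add, map_add, map_add, ha, hb]
  | single h r => rw [κ, MonoidAlgebra.single_mul_single, augK_single, augK_single, one_mul]

theorem augK_ker (u : ZK) (hu : augK u = 0) :
    ∃ v z, u = v * (κ xK - 1) + z * (κ tK - 1) := by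
  obtain ⟨z, hz⟩ := π₃_ker (πK u) hu
  obtain ⟨z', rfl⟩ := πK_surj z
  obtain ⟨v, hv⟩ := πK_ker (u - (z' * κ tK - z')) (by
    rw [map_sub, map_sub, πK_T, hz, sub_self])
  refine ⟨v, z', ?_⟩
  rw [← hv, mul_sub, mul_one]
  abel

theorem augK_d (v z : ZK) : augK (v * (κ xK - 1) + z * (κ tK - 1)) = 0 := by
  have h1 : πK (v * (κ xK - 1)) = 0 := πK_α v
  have h2 : πK (z * (κ tK - 1)) = T₂ (πK z) - πK z := by
    rw [mul_sub, mul_one, map_sub, πK_T]
  rw [augK, AddMonoidHom.comp_apply, map_add, h1, h2, zero_add, π₃_T₂]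

theorem exK (u z : ZK) (h : u * (κ xK - 1) + z * (κ tK - 1) = 0) :
    ∃ v, u = v * (-(κ (tK * xK⁻¹)) - 1) ∧ z = v * (-(κ xK - 1)) := by
  have h2 : T₂ (πK z) = πK z := by
    have := congrArg πK h
    rw [map_add, πK_α, zero_add, mul_sub, mul_one, map_sub, πK_T, map_zero] at this
    exact sub_eq_zero.mp this
  obtain ⟨v, hv⟩ := πK_ker z (T₂_inj _ h2)
  have h3 : κ xK * κ tK = κ (tK * xK⁻¹) := by
    rw [κ_mul]; exact congrArg κ (Subtype.ext Gam.x_mul_t)
  have h4 : κ (tK * xK⁻¹) * κ xK = κ tK := by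
    rw [κ_mul]; exact congrArg κ (by group)
  have key : (u - (-v) * (-(κ (tK * xK⁻¹)) - 1)) * (κ xK - 1) = 0 := by
    calc (u - (-v) * (-(κ (tK * xK⁻¹)) - 1)) * (κ xK - 1)
        = u * (κ xK - 1) - v * (κ (tK * xK⁻¹) * κ xK) + v * κ (tK * xK⁻¹)
          - v * κ xK + v := by noncomm_ring
      _ = u * (κ xK - 1) - v * κ tK + v * (κ xK * κ tK) - v * κ xK + v := by rw [h4, h3]
      _ = u * (κ xK - 1) + (v * (κ xK - 1)) * (κ tK - 1) := by noncomm_ring
      _ = 0 := by rw [← hv]; exact h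
  refine ⟨-v, ?_, ?_⟩
  · exact sub_eq_zero.mp (αK_inj _ key)
  · rw [hv]; noncomm_ring

theorem ex2K (v : ZK) : v * (-(κ (tK * xK⁻¹)) - 1) * (κ xK - 1) +
    v * (-(κ xK - 1)) * (κ tK - 1) = 0 := by
  have h3 : κ xK * κ tK = κ (tK * xK⁻¹) := by
    rw [κ_mul]; exact congrArg κ (Subtype.ext Gam.x_mul_t)
  have h4 : κ (tK * xK⁻¹) * κ xK = κ tK := by
    rw [κ_mul]; exact congrArg κ (by group)
  calc v * (-(κ (tK * xK⁻¹)) - 1) * (κ xK - 1) + v * (-(κ xK - 1)) * (κ tK - 1)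
      = -(v * (κ (tK * xK⁻¹) * κ xK)) + v * κ (tK * xK⁻¹) - v * κ xK + v
        - v * (κ xK * κ tK) + v * κ xK + v * κ tK - v := by noncomm_ring
    _ = 0 := by rw [h4, h3]; noncomm_ring

/-- ranks for the Klein bottle group -/
def mK : ℕ → ℕ
  | 0 => 1
  | 1 => 2
  | 2 => 1
  | _ => 0

/-- first matrix -/
noncomputable def E0 : Matrix (Fin 2) (Fin 1) ZK := !![κ xK - 1; κ tK - 1]
/-- second matrix -/
noncomputable def E1 : Matrix (Fin 1) (Fin 2) ZK := !![-(κ (tK * xK⁻¹)) - 1, -(κ xK - 1)]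

/-- matrices -/
noncomputable def EE : (i : ℕ) → Matrix (Fin (mK (i + 1))) (Fin (mK i)) ZK
  | 0 => E0
  | 1 => E1
  | _ + 2 => 0

theorem vec_E0 (u : Fin 2 → ZK) : Matrix.vecMul u E0 =
    fun _ : Fin 1 => u 0 * (κ xK - 1) + u 1 * (κ tK - 1) := by
  funext j
  fin_cases j
  simp [E0, Matrix.vecMul, dotProduct]

theorem vec_E1 (u : Fin 1 → ZK) : Matrix.vecMul u E1 =
    (![u 0 * (-(κ (tK * xK⁻¹)) - 1), u 0 * (-(κ xK - 1))] : Fin 2 → ZK) := by
  funext j
  fin_cases j <;> simp [E1, Matrix.vecMul, dotProduct]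

theorem exactK0 (x : Fin 1 → ZK) : (∃ u : Fin 2 → ZK, Matrix.vecMul u E0 = x) ↔
    augK (x 0) = 0 := by
  constructor
  · rintro ⟨u, rfl⟩
    rw [vec_E0]
    exact augK_d _ _
  · intro h
    obtain ⟨v, z, hz⟩ := augK_ker (x 0) h
    refine ⟨![v, z], ?_⟩
    rw [vec_E0]
    funext j
    fin_cases j
    exact hz.symm

theorem exactK1 (x : Fin 2 → ZK) : (∃ u : Fin 1 → ZK, Matrix.vecMul u E1 = x) ↔
    Matrix.vecMul x E0 = 0 := by
  constructor
  · rintro ⟨u, rfl⟩
    rw [vec_E0, vec_E1]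
    funext j
    exact ex2K (u 0)
  · intro h
    rw [vec_E0] at h
    obtain ⟨v, hv1, hv2⟩ := exK _ _ (congrFun h (0 : Fin 1))
    refine ⟨![v], ?_⟩
    rw [vec_E1]
    funext j
    fin_cases j
    · exact hv1.symm
    · exact hv2.symm

/-- The Klein bottle subgroup is `FP₂`. -/
theorem FP2K : ∃ m : ℕ → ℕ,
          ∃ d : ∀ i : ℕ, (Fin (m (i + 1)) → MonoidAlgebra ℤ Kb) →ₗ[MonoidAlgebra ℤ Kb]
              (Fin (m i) → MonoidAlgebra ℤ Kb),
          ∃ ε : (Fin (m 0) → MonoidAlgebra ℤ Kb) →+ ℤ,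
            (∀ (g : Kb) (x : Fin (m 0) → MonoidAlgebra ℤ Kb),
                ε (MonoidAlgebra.of ℤ Kb g • x) = ε x) ∧
            Function.Surjective ε ∧
            (∀ x, x ∈ LinearMap.range (d 0) ↔ ε x = 0) ∧
            (∀ i : ℕ, i + 1 < 2 → LinearMap.range (d (i + 1)) = LinearMap.ker (d i)) := by
  refine ⟨mK, fun i => (EE i).vecMulLinear, augK.comp (Pi.evalAddMonoidHom _ (0 : Fin 1)),
    ?_, ?_, ?_, ?_⟩
  · intro g x
    exact augK_κ_mul g (x (0 : Fin 1))
  · intro n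
    exact ⟨fun _ => MonoidAlgebra.single 1 n, augK_single 1 n⟩
  · intro x
    exact exactK0 x
  · intro i hi
    have : i = 0 := by omega
    subst this
    ext x
    rw [LinearMap.mem_range, LinearMap.mem_ker]
    exact exactK1 x

section GroupTheory

theorem self_norm (g : Gam) (h : ∀ k : Gam, k ∈ Kb ↔ g * k * g⁻¹ ∈ Kb) : g ∈ Kb := by
  have h1 := (h Gam.t).1 rfl
  rw [mem_Kb] at h1 ⊢
  have e : sg (g.c + 1) = -sg g.c := by rw [sg_add, sg_one]; ring
  simp only [Gam.mul_b, Gam.mul_c, Gam.inv_b, Gam.t_b, Gam.t_c, e] at h1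
  have e2 := sg_mul_self g.c
  have : 2 * g.b = 0 := by linear_combination h1 - g.b * e2
  omega

theorem not_virt_abelian : ¬ ∃ A : Subgroup Gam, A.FiniteIndex ∧ ∀ a ∈ A, ∀ b ∈ A, a * b = b * a := by
  rintro ⟨A, hA, hab⟩
  obtain ⟨n, hn0, hn1, hn⟩ := Subgroup.exists_pow_mem_of_index_ne_zero hA.index_ne_zero Gam.y
  obtain ⟨m, hm0, hm1, hm⟩ := Subgroup.exists_pow_mem_of_index_ne_zero hA.index_ne_zero Gam.t
  have hy : ∀ k : ℕ, Gam.y ^ k = ⟨0, k, 0⟩ := by
    intro k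
    induction k with
    | zero => rfl
    | succ k ih => rw [pow_succ, ih]; apply Gam.ext <;> simp [sg_zero]
  have ht : ∀ k : ℕ, Gam.t ^ k = ⟨0, 0, k⟩ := by
    intro k
    induction k with
    | zero => rfl
    | succ k ih => rw [pow_succ, ih]; apply Gam.ext <;> simp
  have hm' : Gam.t ^ m * Gam.t ^ m ∈ A := A.mul_mem hm hm
  have hc := hab _ hm' _ hn
  rw [← pow_add, hy, ht] at hc
  have ha := congrArg Gam.a hc
  have hev : sg (((m + m : ℕ)) : ℤ) = 1 := sg_even (by push_cast; exact ⟨m, rfl⟩)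
  simp only [Gam.mul_a, hev, sg_zero] at ha
  push_cast at ha
  have h2 : ((m : ℤ) + m) * n = 0 := by linear_combination ha
  rcases mul_eq_zero.mp h2 with h3 | h3 <;> omega

/-- The parity homomorphism. -/
def par : Gam →* ℤˣ where
  toFun g := Int.negOnePow g.c
  map_one' := by simp
  map_mul' g h := by simp [Int.negOnePow_add]

theorem relIndex_ne (g : Gam) : (Kb.map (MulAut.conj g).toMonoidHom).relIndex Kb ≠ 0 := by
  have h1 : Kb ⊓ par.ker ≤ Kb.map (MulAut.conj g).toMonoidHom := by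
    rintro k ⟨hk1, hk2⟩
    refine ⟨g⁻¹ * k * g, ?_, ?_⟩
    · have hk1' : k.b = 0 := hk1
      change (g⁻¹ * k * g).b = 0
      have hk3 : Int.negOnePow k.c = 1 := hk2
      have hk4 : sg k.c = 1 := by rw [sg, hk3]; rfl
      have e : sg (-g.c + k.c) = sg g.c := by rw [sg_add, sg_neg, hk4, mul_one]
      simp only [Gam.mul_b, Gam.mul_c, Gam.inv_b, Gam.inv_c, hk1', e]
      ring
    · simp [mul_assoc]
  have h2 : (Kb ⊓ par.ker).relIndex Kb ≠ 0 := by
    rw [Subgroup.inf_relIndex_left]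
    exact Subgroup.FiniteIndex.index_ne_zero
  exact fun h => h2 (Nat.eq_zero_of_zero_dvd (h ▸ Subgroup.relIndex_dvd_of_le_left Kb h1))

theorem infinite_index (F : Finset Gam) : ∃ g : Gam, ∀ f ∈ F, ¬ (f⁻¹ * g ∈ Kb) := by
  obtain ⟨n, hn⟩ := Infinite.exists_notMem_finset (F.image Gam.b)
  refine ⟨⟨0, n, 0⟩, fun f hf h => hn ?_⟩
  rw [mem_Kb] at h
  simp only [Gam.mul_b, Gam.inv_b, Gam.inv_c, sg_neg] at h
  rw [Finset.mem_image]
  refine ⟨f, hf, ?_⟩
  have h2 : sg f.c * (n - f.b) = 0 := by linear_combination h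
  rcases mul_eq_zero.mp h2 with h3 | h3
  · exact absurd h3 (sg_ne_zero _)
  · omega

end GroupTheory

end Pool.Agent.Helper74.PD3
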